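import Pool.Agent.H93.TR.RootMain

/-!
# Projective primitive symplectic varieties and the divisors over them
-/

set_option autoImplicit false

universe u

namespace Pool.Agent.H93.TR

open Pool.Agent.Q50.HK Pool.Agent.Q50.HK.Moduli

/-- The projective primitive symplectic varieties `X` whose `ℚ`-factorial terminalizations have second
Betti number at least five: `Var` is the set of these varieties, `Bundle X` the set of the nef line
bundles `L` on `X`; `Semiample X L`: `L` is semiample; `Effective X L`: `κ(L) ≥ 0`; `Moving X L`:
`κ(L) ≥ 1`; `Typ` the set of the locally trivial deformation types of `ℚ`-factorial terminal primitive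
symplectic varieties with second Betti number at least five (connected components of the moduli spaces
of marked varieties, not only projective ones), `b i` the second Betti number and `type i` the marked
varieties of the type `i`, with their periods, Kähler cones, monodromy operators, semiample classes and
prime divisors; `term X` a `ℚ`-factorial terminalization `M → X` with a marking, `typ X` its type;
`pull X L` the class of the pull-back of `L` to `M`; `contracted X` the set of the prime divisors of `M`
contracted by `M → X`. -/
structure SymplecticV where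
  /-- the varieties `X` -/
  Var : Type u
  /-- the nef line bundles `L` on `X` -/
  Bundle : Var → Type u
  /-- `L` is semiample -/
  Semiample : ∀ X, Bundle X → Prop
  /-- `κ(L) ≥ 0` -/
  Effective : ∀ X, Bundle X → Prop
  /-- `κ(L) ≥ 1` -/
  Moving : ∀ X, Bundle X → Prop
  /-- the deformation types -/
  Typ : Type u
  /-- the second Betti number -/
  b : Typ → ℕ
  /-- the marked varieties of the given type -/
  type : ∀ i, Divisors.{u} (b i)
  /-- the type of the terminalization -/
  typ : Var → Typ
  /-- the terminalization `M` of `X` -/
  term : ∀ X, (type (typ X)).Mk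
  /-- the class of the pull-back of `L` to `M` -/
  pull : ∀ X, Bundle X → V (b (typ X))
  /-- the prime divisors of `M` contracted by `M → X` -/
  contracted : ∀ X, Set ((type (typ X)).Prime (term X))

namespace SymplecticV

variable (S : SymplecticV.{u})

/-- The data of the type of the terminalization of `X`. -/
abbrev T (X : S.Var) : Divisors.{u} (S.b (S.typ X)) := S.type (S.typ X)

/-- The known facts. `facts`: the period map, the chambers, the wall classes, the monodromy (Bakker-Lehn;
Lehn-Mongardi-Pacienza), the stability of prime exceptional divisors and their reflections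
(Lehn-Mongardi-Pacienza), deformation invariance of semiampleness for nef isotropic classes, good minimal
models. `projective`: `M` is projective. `semiample`, `effective`, `moving`: as `M → X` is birational and `X`
normal, `L` is semiample if and only if its pull-back is, and the Iitaka dimensions of `L` and of its
pull-back are the same; as `H¹(M, 𝒪) = 0`, they are determined by the effective divisors with classes
multiples of the class of the pull-back. `other`: if the class of the (nef) pull-back is zero or has
positive square, then `L` is semiample. `effective_of`: if `L` is semiample, then `κ(L) ≥ 0`. `orthogonal`,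
`negative`: the contracted divisors are orthogonal to the pull-backs from `X`, and the form is
negative definite on their span, and their classes are linearly independent. -/
structure Facts : Prop where
  facts : ∀ i, (S.type i).RootFacts
  projective : ∀ X, (S.T X).Projective (S.term X)
  semiample : ∀ X L, S.Semiample X L ↔ (S.T X).semiample (S.term X) (S.pull X L)
  effective : ∀ X L, S.Effective X L ↔ (S.T X).EffectiveQ (S.term X) (S.pull X L)
  moving : ∀ X L, S.Moving X L ↔ (S.T X).Moving (S.term X) (S.pull X L)
  other : ∀ X L, ¬ (S.T X).NefIsotropic (S.term X) (S.pull X L) → S.Semiample X L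
  effective_of : ∀ X L, S.Semiample X L → S.Effective X L
  orthogonal : ∀ X L, ∀ P ∈ S.contracted X, (S.T X).B (S.pull X L) ((S.T X).cls (S.term X) P) = 0
  negative : ∀ X (s : Finset ((S.T X).Prime (S.term X))) (x : (S.T X).Prime (S.term X) → ℝ),
    (∀ P ∈ s, P ∈ S.contracted X) → (∃ P ∈ s, x P ≠ 0) →
    (S.T X).B (∑ P ∈ s, x P • (S.T X).cls (S.term X) P)
      (∑ P ∈ s, x P • (S.T X).cls (S.term X) P) < 0

variable {S}

/-- **Nonvanishing for varieties which are singular in codimension two.** -/
theorem nonvanishing_of_contracted (hS : S.Facts) {X : S.Var} (hX : (S.contracted X).Nonempty)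
    (L : S.Bundle X) : S.Effective X L := by
  by_cases hl : (S.T X).NefIsotropic (S.term X) (S.pull X L)
  swap
  · exact hS.effective_of X L (hS.other X L hl)
  obtain ⟨P, hP⟩ := hX
  have hT := hS.facts (S.typ X)
  have hneg := hS.negative X {P} (fun _ => 1) (by simpa using hP) ⟨P, by simp, one_ne_zero⟩
  simp only [Finset.sum_singleton, one_smul] at hneg
  obtain ⟨k, hk, he⟩ := hT.facts.prime_exceptional _ (hS.projective X) P hneg
  refine (hS.effective X L).2 (nonvanishing hT.facts hl he (fun q hq => ?_) ?_)
  · rw [map_smul, hT.facts.orth _ P q hq, smul_zero]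
  · rw [map_smul, hS.orthogonal X L P hP, smul_zero]

/-- **Varieties with three contracted divisors.** -/
theorem semiample_of_contracted (hS : S.Facts) {X : S.Var}
    (hdim : (S.T X).dim ≤ 4 ∨ ∀ m < (S.T X).dim, (S.T X).good m)
    {P : Fin 3 → (S.T X).Prime (S.term X)} (hinj : Function.Injective P)
    (hP : ∀ j, P j ∈ S.contracted X) (L : S.Bundle X) : S.Semiample X L := by
  classical
  by_cases hl : (S.T X).NefIsotropic (S.term X) (S.pull X L)
  swap
  · exact hS.other X L hl
  have hT := hS.facts (S.typ X)
  have hne : ∀ i j : Fin 3, i ≠ j → P i ≠ P j := fun i j h h' => h (hinj h')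
  -- negativity
  have hneg : ∀ a b c : ℝ, ¬ (a = 0 ∧ b = 0 ∧ c = 0) →
      (S.T X).B (a • (S.T X).cls _ (P 0) + b • (S.T X).cls _ (P 1) + c • (S.T X).cls _ (P 2))
        (a • (S.T X).cls _ (P 0) + b • (S.T X).cls _ (P 1) + c • (S.T X).cls _ (P 2)) < 0 := by
    intro a b c habc
    have h1 := hS.negative X {P 0, P 1, P 2}
      (fun Q => if Q = P 0 then a else if Q = P 1 then b else c)
      (by
        intro Q hQ
        simp only [Finset.mem_insert, Finset.mem_singleton] at hQ
        rcases hQ with rfl | rfl | rfl
        · exact hP 0
        · exact hP 1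
        · exact hP 2)
      (by
        by_contra hcon
        push Not at hcon
        apply habc
        have e0 := hcon (P 0) (by simp)
        have e1 := hcon (P 1) (by simp)
        have e2 := hcon (P 2) (by simp)
        simp only [if_true] at e0
        simp only [if_neg (hne 1 0 (by decide)), if_true] at e1
        simp only [if_neg (hne 2 0 (by decide)), if_neg (hne 2 1 (by decide))] at e2
        exact ⟨e0, e1, e2⟩)
    have h2 : ∑ Q ∈ ({P 0, P 1, P 2} : Finset _),
        (if Q = P 0 then a else if Q = P 1 then b else c) • (S.T X).cls (S.term X) Q =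
        a • (S.T X).cls _ (P 0) + b • (S.T X).cls _ (P 1) + c • (S.T X).cls _ (P 2) := by
      rw [Finset.sum_insert (by
        simp only [Finset.mem_insert, Finset.mem_singleton, not_or]
        exact ⟨hne 0 1 (by decide), hne 0 2 (by decide)⟩),
        Finset.sum_insert (by
          simp only [Finset.mem_singleton]
          exact hne 1 2 (by decide)), Finset.sum_singleton, if_pos rfl,
        if_neg (hne 1 0 (by decide)), if_pos rfl, if_neg (hne 2 0 (by decide)),
        if_neg (hne 2 1 (by decide))]
      module
    rw [h2] at h1
    exact h1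
  have hsq : ∀ j, (S.T X).B ((S.T X).cls _ (P j)) ((S.T X).cls _ (P j)) < 0 := by
    intro j
    have := hS.negative X {P j} (fun _ => 1) (by simpa using hP j) ⟨P j, by simp, one_ne_zero⟩
    simpa only [Finset.sum_singleton, one_smul] using this
  choose k hk he using fun j => hT.facts.prime_exceptional _ (hS.projective X) (P j) (hsq j)
  have hkr : ∀ j, (k j : ℝ) ≠ 0 := fun j => by exact_mod_cast (hk j).ne'
  have hle : ∀ j, (S.T X).B (S.pull X L) ((k j : ℝ) • (S.T X).cls _ (P j)) = 0 := fun j => by
    rw [map_smul, hS.orthogonal X L _ (hP j), smul_zero]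
  have hneg' : ∀ a b c : ℝ, ¬ (a = 0 ∧ b = 0 ∧ c = 0) →
      (S.T X).B (a • ((k 0 : ℝ) • (S.T X).cls _ (P 0)) + b • ((k 1 : ℝ) • (S.T X).cls _ (P 1)) +
          c • ((k 2 : ℝ) • (S.T X).cls _ (P 2)))
        (a • ((k 0 : ℝ) • (S.T X).cls _ (P 0)) + b • ((k 1 : ℝ) • (S.T X).cls _ (P 1)) +
          c • ((k 2 : ℝ) • (S.T X).cls _ (P 2))) < 0 := by
    intro a b c habc
    have := hneg (a * k 0) (b * k 1) (c * k 2) (by
      rintro ⟨h0, h1, h2⟩
      exact habc ⟨(mul_eq_zero.1 h0).resolve_right (hkr 0),
        (mul_eq_zero.1 h1).resolve_right (hkr 1), (mul_eq_zero.1 h2).resolve_right (hkr 2)⟩)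
    simpa only [smul_smul] using this
  refine (hS.semiample X L).2 (semiample_main hT hdim (Or.inr (Or.inl
    ⟨_, _, _, he 0, he 1, he 2, hle 0, hle 1, hle 2, ?_, ?_⟩)) hl)
  · rw [Fintype.linearIndependent_iff]
    intro g hg
    rw [Fin.sum_univ_three] at hg
    have hz : g 0 = 0 ∧ g 1 = 0 ∧ g 2 = 0 := by
      by_contra hcon
      have h1 := hneg' (g 0) (g 1) (g 2) hcon
      have h2 : g 0 • ((k 0 : ℝ) • (S.T X).cls _ (P 0)) +
          g 1 • ((k 1 : ℝ) • (S.T X).cls _ (P 1)) +
          g 2 • ((k 2 : ℝ) • (S.T X).cls _ (P 2)) = 0 := hg
      rw [h2] at h1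
      simp at h1
    intro i
    fin_cases i
    · exact hz.1
    · exact hz.2.1
    · exact hz.2.2
  · intro x hx hx0
    obtain ⟨a, b, c, rfl⟩ := mem_span_three hx
    refine hneg' a b c ?_
    rintro ⟨rfl, rfl, rfl⟩
    simp at hx0

end SymplecticV

end Pool.Agent.H93.TR
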