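import Pool.Agent.H93.TR.Orb

/-!
# Prime divisors and stably exceptional classes: definitions
-/

set_option autoImplicit false

universe u

namespace Pool.Agent.H93.TR

open Pool.Agent.Q50.HK Pool.Agent.Q50.HK.Moduli

/-- A component of the moduli space of marked hyperkähler manifolds `M` (see `Moduli`, `Bundles`) of
dimension `dim`, with: `Prime M` the set of the prime divisors on `M`, and `cls M P ∈ H²(M, ℝ)` the class of
the prime divisor `P`. Further `good m` is the statement that good minimal models exist for the projective
klt pairs `(Y, Δ)` with `dim Y = m` and `κ(K + Δ) ≥ 0`. -/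
structure Divisors (n : ℕ) extends Bundles.{u} n where
  /-- the dimension of the manifolds -/
  dim : ℕ
  /-- the existence of good minimal models in the given dimension -/
  good : ℕ → Prop
  /-- the prime divisors -/
  Prime : Mk → Type u
  /-- the classes of the prime divisors -/
  cls : ∀ M, Prime M → V n

variable {n : ℕ} (T : Divisors.{u} n)

namespace Divisors

/-- The class of the effective divisor `D = ∑ D(P) P` on `M`. -/
noncomputable def div (M : T.Mk) (D : T.Prime M →₀ ℕ) : V n :=
  D.sum fun P a => (a : ℝ) • T.cls M P

/-- A positive multiple of `x` is the class of an effective divisor. If `x` is the class of a line bundle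
`L`, this says that the Iitaka dimension `κ(L)` is `≥ 0`. -/
def EffectiveQ (M : T.Mk) (x : V n) : Prop :=
  ∃ k : ℕ, 0 < k ∧ ∃ D, T.div M D = (k : ℝ) • x

/-- A positive multiple of `x` is the class of two different effective divisors. If `x` is the class of
a line bundle `L`, this says that `κ(L) ≥ 1`, since `H¹(M, 𝒪) = 0`. -/
def Moving (M : T.Mk) (x : V n) : Prop :=
  ∃ k : ℕ, 0 < k ∧ ∃ D D', D ≠ D' ∧ T.div M D = (k : ℝ) • x ∧ T.div M D' = (k : ℝ) • x

/-- The integral class `e` is stably effective: on all `M` of the type on which `e` has type `(1,1)` and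
positive product with a Kähler class, a positive multiple of `e` is the class of an effective divisor. -/
def StablyEffective (e : V n) : Prop :=
  IsInt e ∧ ∀ M, T.Orth (T.period M) e → ∀ x ∈ T.kahler M, 0 < T.B x e → T.EffectiveQ M e

/-- `e` is a class of negative square such that `e` and `-e` are stably effective. By Markman's theorem
these are the multiples of the classes `± e`, `e` stably prime exceptional. -/
def Exceptional (e : V n) : Prop :=
  T.B e e < 0 ∧ T.StablyEffective e ∧ T.StablyEffective (-e)

/-- The exceptional classes of type `(1,1)` on `M` which are orthogonal to `l`. -/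
def Exc (M : T.Mk) (l : V n) : Set (V n) :=
  {e | T.Exceptional e ∧ T.NS M e ∧ T.B l e = 0}

/-- The set of the exceptional classes of type `(1,1)` on `M` which are orthogonal to `l` is reducible:
it is the union of two nonempty sets which are orthogonal to each other. -/
def Reducible (M : T.Mk) (l : V n) : Prop :=
  ∃ A A' : Set (V n), A.Nonempty ∧ A'.Nonempty ∧ T.Exc M l = A ∪ A' ∧
    ∀ a ∈ A, ∀ a' ∈ A', T.B a a' = 0

/-- There are two exceptional classes orthogonal to `l` and to each other, such that the only exceptional
classes in their span with `l` are those in the span of `l` and one of them. -/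
def ExceptionalPair (l : V n) : Prop :=
  ∃ e₁ e₂, T.Exceptional e₁ ∧ T.Exceptional e₂ ∧ T.B l e₁ = 0 ∧ T.B l e₂ = 0 ∧ T.B e₁ e₂ = 0 ∧
    ∀ e, T.Exceptional e → e ∈ Submodule.span ℝ {l, e₁, e₂} →
      e ∈ Submodule.span ℝ {l, e₁} ∨ e ∈ Submodule.span ℝ {l, e₂}

/-- Known facts, besides those of `Bundles.Facts`. `finite_index` (Verbitsky): the monodromy group has
finite index in the group of the isometries of the lattice. `marking`: the marking of `M` may be changed by
a monodromy operator. `rational`, `orth`, `positive`: the class of a prime divisor is rational of type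
`(1,1)`, and has positive product with the Kähler classes. `prime_exceptional` (Markman): the class of a prime divisor with negative square on a
projective `M` is stably prime exceptional. `good_three` (Shokurov, Kawamata, Keel-Matsuki-McKernan): good
minimal models of klt pairs exist in dimension `≤ 3`. `abundance` (Kawamata, Lai): if good minimal
models exist in all dimensions less than the dimension of `M`, then nef line bundles `L` with `κ(L) ≥ 1` on
projective `M` are semiample. -/
structure Facts : Prop where
  bundles : T.toBundles.Facts
  finite_index : FiniteIndex T.toModuli T.mon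
  marking : ∀ φ ∈ T.mon, ∀ M, ∃ M', (∀ p ∈ T.period M', ∃ p' ∈ T.period M, φ p' = p) ∧
    (∀ x ∈ T.kahler M, φ x ∈ T.kahler M') ∧ ∀ x, T.EffectiveQ M' (φ x) ↔ T.EffectiveQ M x
  rational : ∀ M P, ∃ k : ℕ, 0 < k ∧ IsInt ((k : ℝ) • T.cls M P)
  orth : ∀ M P, T.Orth (T.period M) (T.cls M P)
  positive : ∀ M P, ∀ x ∈ T.kahler M, 0 < T.B x (T.cls M P)
  prime_exceptional : ∀ M, T.Projective M → ∀ P, T.B (T.cls M P) (T.cls M P) < 0 →
    ∃ k : ℕ, 0 < k ∧ T.Exceptional ((k : ℝ) • T.cls M P)
  good_three : ∀ m ≤ 3, T.good m
  abundance : (∀ m < T.dim, T.good m) → ∀ M l, T.Projective M → T.NefIsotropic M l →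
    T.Moving M l → T.semiample M l

end Divisors

end Pool.Agent.H93.TR
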