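import Pool.Agent.H93.TR.Main
import Pool.Agent.H93.TR.DivDefs

/-!
# Two exceptional classes orthogonal to an isotropic class
-/

set_option autoImplicit false
set_option maxHeartbeats 1000000

universe u

namespace Pool.Agent.H93.TR

open Pool.Agent.Q50.HK Pool.Agent.Q50.HK.Moduli

variable {n : ℕ} {T : Divisors.{u} n}

theorem div_add (M : T.Mk) (D D' : T.Prime M →₀ ℕ) :
    T.div M (D + D') = T.div M D + T.div M D' := by
  classical
  unfold Divisors.div
  rw [Finsupp.sum_add_index']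
  · intro P
    simp
  · intro P a b
    push_cast
    rw [add_smul]

theorem div_nsmul (M : T.Mk) (k : ℕ) (D : T.Prime M →₀ ℕ) :
    T.div M (k • D) = (k : ℝ) • T.div M D := by
  induction k with
  | zero => simp [Divisors.div]
  | succ k ih =>
    rw [succ_nsmul, div_add, ih]
    push_cast
    module

/-- The value of a linear function on the class of a divisor. -/
theorem map_div (M : T.Mk) (D : T.Prime M →₀ ℕ) (f : V n →ₗ[ℝ] ℝ) :
    f (T.div M D) = ∑ P ∈ D.support, (D P : ℝ) * f (T.cls M P) := by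
  unfold Divisors.div Finsupp.sum
  rw [map_sum]
  exact Finset.sum_congr rfl fun P _ => by rw [map_smul, smul_eq_mul]

theorem div_mem (M : T.Mk) (D : T.Prime M →₀ ℕ) (S : Submodule ℝ (V n))
    (h : ∀ P ∈ D.support, T.cls M P ∈ S) : T.div M D ∈ S := by
  unfold Divisors.div Finsupp.sum
  exact Submodule.sum_mem _ fun P hP => S.smul_mem _ (h P hP)

theorem div_rational (hT : T.Facts) (M : T.Mk) (D : T.Prime M →₀ ℕ) :
    ∃ k : ℕ, 0 < k ∧ IsInt ((k : ℝ) • T.div M D) := by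
  classical
  induction D using Finsupp.induction_linear with
  | zero =>
    refine ⟨1, one_pos, fun i => ⟨0, ?_⟩⟩
    simp [Divisors.div]
  | add D D' h h' =>
    obtain ⟨k, hk, h⟩ := h
    obtain ⟨k', hk', h'⟩ := h'
    refine ⟨k * k', Nat.mul_pos hk hk', ?_⟩
    have := (h.zsmul k').add (h'.zsmul k)
    rw [div_add]
    convert this using 1
    push_cast
    module
  | single P a =>
    obtain ⟨k, hk, h⟩ := hT.rational M P
    refine ⟨k, hk, ?_⟩
    have h1 : T.div M (Finsupp.single P a) = (a : ℝ) • T.cls M P := by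
      unfold Divisors.div
      rw [Finsupp.sum_single_index (by simp)]
    have := h.zsmul a
    rw [h1]
    convert this using 1
    push_cast
    module

/-- The translates of a stably effective class are stably effective. -/
theorem stably_translateQ (hT : T.Facts) {k : ℕ}
    (hk : ∀ φ : V n ≃ₗ[ℝ] V n, (∀ x y, T.B (φ x) (φ y) = T.B x y) →
      (∀ x, IsInt x ↔ IsInt (φ x)) → φ ^ k ∈ T.mon) {l e : V n} (hl : IsInt l)
    (hq : T.B l l = 0) (hle : T.B l e = 0) (he : T.StablyEffective e) (j : ℤ) :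
    T.StablyEffective (e + (2 * k * j * T.B e e) • l) := by
  have hF : T.toModuli.Facts := hT.bundles.toFacts
  obtain ⟨m, hm⟩ := hF.integral e e he.1 he.1
  have hel : T.B e l = 0 := by rw [hF.symm]; exact hle
  refine ⟨?_, ?_⟩
  · have := he.1.add (hl.zsmul (2 * k * j * m))
    rw [hm]
    convert this using 2
    push_cast
    ring
  intro M hP x hx hxe
  have hje : IsInt ((j : ℝ) • e) := he.1.zsmul j
  obtain ⟨φ, hφ, hφx, -⟩ := tv_mem hF hk hl hje hq (by rw [map_smul, hle, smul_zero])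
  have hla : T.B l ((2 * k : ℝ) • (j : ℝ) • e) = 0 := by rw [map_smul, map_smul, hle]; simp
  have hiso : ∀ x y, T.B (φ x) (φ y) = T.B x y := by
    intro x y
    rw [hφx, hφx]
    exact tv_isometry hF hq hla x y
  have hφe : φ (e + (2 * k * j * T.B e e) • l) = e := by
    rw [hφx, tv_apply]
    simp only [map_add, map_smul, LinearMap.smul_apply, smul_eq_mul, hle, hel, hq, mul_zero,
      add_zero, zero_smul, sub_zero, smul_smul]
    module
  obtain ⟨M', hM1, hM2, hM3⟩ := hT.marking φ hφ M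
  rw [← hM3, hφe]
  refine he.2 M' (fun p hp => ?_) (φ x) (hM2 x hx) ?_
  · obtain ⟨p', hp', rfl⟩ := hM1 p hp
    rw [← hφe, hiso]
    exact hP p' hp'
  · rw [← hφe, hiso]
    exact hxe

/-- `e + c l` and `-e + c l` are effective. -/
theorem split_ofQ (hT : T.Facts) {M : T.Mk} {l e : V n} (hl : T.NefIsotropic M l)
    (he : T.Exceptional e) (heP : T.Orth (T.period M) e) (hle : T.B l e = 0) :
    ∃ c : ℕ, 0 < c ∧ T.EffectiveQ M (e + (c : ℝ) • l) ∧ T.EffectiveQ M (-e + (c : ℝ) • l) := by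
  have hF : T.toModuli.Facts := hT.bundles.toFacts
  obtain ⟨k, hk0, hk⟩ := hT.finite_index
  obtain ⟨y, hy⟩ := hF.nonempty M
  have hyl := nef_pos hF hl hy
  obtain ⟨hee, h1, h2⟩ := he
  obtain ⟨m, hm⟩ := hF.integral e e h1.1 h1.1
  have hm0 : m < 0 := by
    rw [hm] at hee
    exact_mod_cast hee
  obtain ⟨j, hj⟩ := exists_nat_gt (|T.B y e| / T.B y l)
  rw [div_lt_iff₀ hyl] at hj
  have hj0 : 0 < j := by
    rcases Nat.eq_zero_or_pos j with h | h
    · rw [h] at hj
      have := abs_nonneg (T.B y e)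
      simp at hj
      linarith
    · exact h
  -- the multiple
  set c : ℕ := 2 * k * j * m.natAbs with hc
  have hmr : ((m.natAbs : ℕ) : ℝ) = -(m : ℝ) := by
    rw [Nat.cast_natAbs, Int.cast_abs, abs_of_neg (by exact_mod_cast hm0)]
  have hcr : (c : ℝ) = 2 * k * j * (-m) := by
    rw [hc]
    push_cast
    rw [hmr]
  have hmn : 1 ≤ m.natAbs := by omega
  have hcj : (j : ℝ) ≤ c := by
    have : j ≤ c := by
      rw [hc]
      calc j = 1 * j * 1 := by ring
        _ ≤ 2 * k * j * m.natAbs := by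
          apply Nat.mul_le_mul _ hmn
          apply Nat.mul_le_mul_right
          omega
    exact_mod_cast this
  have hc0 : 0 < c := by
    have : (0 : ℝ) < c := lt_of_lt_of_le (by exact_mod_cast hj0) hcj
    exact_mod_cast this
  have hlP : T.Orth (T.period M) l := hl.1.2
  have hcl : |T.B y e| < c * T.B y l := lt_of_lt_of_le hj (mul_le_mul_of_nonneg_right hcj hyl.le)
  have e1 : e + (2 * k * ((-j : ℤ) : ℝ) * T.B e e) • l = e + (c : ℝ) • l := by
    rw [hcr, hm]
    push_cast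
    congr 2
    ring
  have e2 : -e + (2 * k * ((-j : ℤ) : ℝ) * T.B (-e) (-e)) • l = -e + (c : ℝ) • l := by
    rw [hcr]
    have : T.B (-e) (-e) = T.B e e := by simp
    rw [this, hm]
    push_cast
    congr 2
    ring
  have h3 := stably_translateQ hT hk hl.1.1 hl.2.2.1 hle h1 (-j : ℤ)
  have h4 := stably_translateQ hT hk hl.1.1 hl.2.2.1 (by rw [map_neg, hle, neg_zero]) h2 (-j : ℤ)
  rw [e1] at h3
  rw [e2] at h4
  refine ⟨c, hc0, h3.2 M (fun p hp => ?_) y hy ?_, h4.2 M (fun p hp => ?_) y hy ?_⟩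
  · rw [map_add, map_smul, heP p hp, hlP p hp]
    simp
  · rw [map_add, map_smul, smul_eq_mul]
    have := neg_abs_le (T.B y e)
    linarith
  · rw [map_add, map_smul, map_neg, heP p hp, hlP p hp]
    simp
  · rw [map_add, map_smul, map_neg, smul_eq_mul]
    have := le_abs_self (T.B y e)
    linarith

/-- A multiple of `l` as a sum of effective divisors with classes the multiples of `e + c l` and
`-e + c l`. -/
theorem exists_sum (hT : T.Facts) {M : T.Mk} {l e : V n} (hl : T.NefIsotropic M l)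
    (he : T.Exceptional e) (heP : T.Orth (T.period M) e) (hle : T.B l e = 0) :
    ∃ (m : ℕ) (D A : T.Prime M →₀ ℕ), 0 < m ∧ T.div M D = (m : ℝ) • l ∧
      (∀ P, A P ≠ 0 → D P ≠ 0) ∧ T.B e (T.div M A) ≠ 0 := by
  have hF : T.toModuli.Facts := hT.bundles.toFacts
  have hel : T.B e l = 0 := by rw [hF.symm]; exact hle
  obtain ⟨c, hc, ⟨k, hk, A, hA⟩, ⟨k', hk', A', hA'⟩⟩ := split_ofQ hT hl he heP hle
  refine ⟨2 * k * k' * c, k' • A + k • A', A, by positivity, ?_, ?_, ?_⟩
  · rw [div_add, div_nsmul, div_nsmul, hA, hA']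
    push_cast
    module
  · intro P hP
    simp only [Finsupp.add_apply, Finsupp.smul_apply, smul_eq_mul]
    have := Nat.mul_pos hk' (Nat.pos_of_ne_zero hP)
    omega
  · rw [hA, map_smul, map_add, map_smul, hel, smul_zero, add_zero, smul_eq_mul]
    have : (k : ℝ) ≠ 0 := by exact_mod_cast hk.ne'
    exact mul_ne_zero this he.1.ne

/-- **Nonvanishing.** -/
theorem nonvanishing (hT : T.Facts) {M : T.Mk} {l e : V n} (hl : T.NefIsotropic M l)
    (he : T.Exceptional e) (heP : T.Orth (T.period M) e) (hle : T.B l e = 0) :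
    T.EffectiveQ M l := by
  obtain ⟨m, D, A, hm, hD, -⟩ := exists_sum hT hl he heP hle
  exact ⟨m, hm, D, hD⟩

/-- Nef classes have products `≥ 0` with prime divisors. -/
theorem nef_prime (hT : T.Facts) {M : T.Mk} {l : V n} (hl : T.Nef M l) (P : T.Prime M) :
    0 ≤ T.B l (T.cls M P) := by
  have hF : T.toModuli.Facts := hT.bundles.toFacts
  obtain ⟨y, hy⟩ := hF.nonempty M
  have h1 : ∀ k : ℕ, (k : ℝ) • l + y ∈ T.kahler M := by
    intro k
    induction k with
    | zero => simpa using hy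
    | succ k ih =>
      have := hl _ ih
      convert this using 1
      push_cast
      module
  by_contra hneg
  push Not at hneg
  obtain ⟨k, hk⟩ := exists_nat_ge (T.B y (T.cls M P) / (-T.B l (T.cls M P)))
  have h2 := hT.positive M P _ (h1 k)
  have h3 : T.B y (T.cls M P) ≤ k * (-T.B l (T.cls M P)) := by
    rwa [div_le_iff₀ (by linarith)] at hk
  simp only [map_add, LinearMap.add_apply, map_smul, LinearMap.smul_apply, smul_eq_mul] at h2
  linarith

/-- Coefficients of integral multiples are rational. -/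
theorem rat_coeff {l : V n} (hl : IsInt l) (h0 : l ≠ 0) {a : ℝ} (ha : 0 < a) {K : ℕ} (hK : 0 < K)
    (h : IsInt ((K : ℝ) • a • l)) : ∃ r p : ℕ, 0 < r ∧ 0 < p ∧ (r : ℝ) * a = p := by
  obtain ⟨i, hi⟩ : ∃ i, l i ≠ 0 := by
    by_contra hcon
    push Not at hcon
    exact h0 (funext hcon)
  obtain ⟨w, hw⟩ := hl i
  obtain ⟨z, hz⟩ := h i
  simp only [Pi.smul_apply, smul_eq_mul] at hz
  have hw0 : w ≠ 0 := by
    rintro rfl
    exact hi (by rw [hw]; simp)
  have hKr : (0 : ℝ) < K := by exact_mod_cast hK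
  have e1 : (K : ℝ) * |(w : ℝ)| * a = |(z : ℝ)| := by
    rw [← hz, hw, abs_mul, abs_mul, abs_of_pos hKr, abs_of_pos ha]
    ring
  refine ⟨K * w.natAbs, z.natAbs, Nat.mul_pos hK (Int.natAbs_pos.2 hw0), ?_, ?_⟩
  · rw [Nat.pos_iff_ne_zero, Int.natAbs_ne_zero]
    rintro rfl
    have : 0 < |(w : ℝ)| := abs_pos.2 (by exact_mod_cast hw0)
    have h2 : 0 < (K : ℝ) * |(w : ℝ)| * a := by positivity
    rw [e1] at h2
    simp at h2
  · push_cast
    rw [Nat.cast_natAbs, Nat.cast_natAbs, Int.cast_abs, Int.cast_abs]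
    exact e1

/-- The Hodge index theorem: classes of type `(1,1)` orthogonal to a nef isotropic class. -/
theorem hodge (hF : T.toModuli.Facts) {M : T.Mk} {l x : V n} (hl : T.NefIsotropic M l)
    (hx : T.Orth (T.period M) x) (hlx : T.B l x = 0) :
    T.B x x < 0 ∨ ∃ t : ℝ, x = t • l := by
  obtain ⟨y, hy⟩ := hF.nonempty M
  have hyl := nef_pos hF hl hy
  obtain ⟨h2, hP⟩ := hF.period M
  obtain ⟨hyP, hyy, -⟩ := (hF.kahler M y hy).1
  have hxl : T.B x l = 0 := by rw [hF.symm]; exact hlx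
  have hlP := hl.1.2
  have hq := hl.2.2.1
  set x' := x - (T.B y x / T.B y l) • l with hx'
  have h1 : T.Orth (T.period M) x' := by
    intro p hp
    rw [hx', map_sub, map_smul, hx p hp, hlP p hp]
    simp
  have h3 : T.B y x' = 0 := by
    rw [hx', map_sub, map_smul, smul_eq_mul]
    field_simp
    ring
  have h4 : T.B x' x' = T.B x x := by
    rw [hx']
    simp only [map_sub, LinearMap.sub_apply, map_smul, LinearMap.smul_apply, smul_eq_mul, hq,
      hlx, hxl]
    ring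
  by_cases h0 : x' = 0
  · right
    exact ⟨_, sub_eq_zero.1 h0⟩
  · left
    rw [← h4]
    exact neg_of_orth hF h2 hP hyP hyy h1 h3 h0

/-- **Reducible sets of exceptional classes: a movable multiple.** -/
theorem moving (hT : T.Facts) {M : T.Mk} (hM : T.Projective M) {l : V n}
    (hl : T.NefIsotropic M l) (hred : T.Reducible M l) : T.Moving M l := by
  classical
  have hF : T.toModuli.Facts := hT.bundles.toFacts
  have hq := hl.2.2.1
  have h0 := hl.2.1
  obtain ⟨A, A', ⟨e₁, he₁⟩, ⟨e₂, he₂⟩, hAA, hAA'⟩ := hred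
  have hAl : ∀ e ∈ A, T.Exceptional e ∧ T.NS M e ∧ T.B l e = 0 := fun e he => by
    have : e ∈ T.Exc M l := by rw [hAA]; exact Or.inl he
    exact this
  have hA'l : ∀ e ∈ A', T.Exceptional e ∧ T.NS M e ∧ T.B l e = 0 := fun e he => by
    have : e ∈ T.Exc M l := by rw [hAA]; exact Or.inr he
    exact this
  obtain ⟨hx₁, hP₁, hle₁⟩ := hAl e₁ he₁
  obtain ⟨hx₂, hP₂, hle₂⟩ := hA'l e₂ he₂
  obtain ⟨m₁, D₁, A₁, hm₁, hD₁, hA₁, hA₁'⟩ := exists_sum hT hl hx₁ hP₁.2 hle₁
  obtain ⟨m₂, D₂, A₂, hm₂, hD₂, hA₂, hA₂'⟩ := exists_sum hT hl hx₂ hP₂.2 hle₂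
  have hc1 : T.div M (m₂ • D₁) = ((m₁ * m₂ : ℕ) : ℝ) • l := by
    rw [div_nsmul, hD₁]
    push_cast
    module
  have hc2 : T.div M (m₁ • D₂) = ((m₁ * m₂ : ℕ) : ℝ) • l := by
    rw [div_nsmul, hD₂]
    push_cast
    module
  by_cases hD : m₂ • D₁ = m₁ • D₂
  swap
  · exact ⟨m₁ * m₂, Nat.mul_pos hm₁ hm₂, _, _, hD, hc1, hc2⟩
  obtain ⟨y, hy⟩ := hF.nonempty M
  have hyl := nef_pos hF hl hy
  set D := m₂ • D₁ with hDdef
  have hs1 : ∀ P, A₁ P ≠ 0 → D P ≠ 0 := by
    intro P hP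
    rw [hDdef, Finsupp.smul_apply, smul_eq_mul]
    exact mul_ne_zero hm₂.ne' (hA₁ P hP)
  have hs2 : ∀ P, A₂ P ≠ 0 → D P ≠ 0 := by
    intro P hP
    rw [hD, Finsupp.smul_apply, smul_eq_mul]
    exact mul_ne_zero hm₁.ne' (hA₂ P hP)
  -- the primes in `D`
  have hPl : ∀ P ∈ D.support, T.B l (T.cls M P) = 0 := by
    have h1 : T.B l (T.div M D) = 0 := by rw [hc1, map_smul, hq, smul_zero]
    rw [map_div, Finset.sum_eq_zero_iff_of_nonneg (fun P _ =>
      mul_nonneg (Nat.cast_nonneg _) (nef_prime hT hl.2.2.2 P))] at h1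
    intro P hP
    refine (mul_eq_zero.1 (h1 P hP)).resolve_left ?_
    exact_mod_cast Finsupp.mem_support_iff.1 hP
  -- the first part
  let p : T.Prime M → Prop := fun P => ∃ k : ℕ, 0 < k ∧ (k : ℝ) • T.cls M P ∈ A
  have hPe : ∀ P ∈ D.support, p P ∨ (∃ k : ℕ, 0 < k ∧ (k : ℝ) • T.cls M P ∈ A') ∨
      ∃ t : ℝ, T.cls M P = t • l := by
    intro P hP
    rcases hodge hF hl (hT.orth M P) (hPl P hP) with h | h
    · obtain ⟨k, hk, hexc⟩ := hT.prime_exceptional M hM P h
      have h1 : (k : ℝ) • T.cls M P ∈ T.Exc M l := by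
        refine ⟨hexc, ⟨hexc.2.1.1, fun q hq => ?_⟩, ?_⟩
        · rw [map_smul, hT.orth M P q hq, smul_zero]
        · rw [map_smul, hPl P hP, smul_zero]
      rw [hAA] at h1
      rcases h1 with h1 | h1
      · exact Or.inl ⟨k, hk, h1⟩
      · exact Or.inr (Or.inl ⟨k, hk, h1⟩)
    · exact Or.inr (Or.inr h)
  set D' := D.filter p with hD'
  set D'' := D.filter (fun P => ¬ p P) with hD''
  have hsum : D' + D'' = D := Finsupp.filter_add_filter_not D _
  have hD's : ∀ P ∈ D'.support, P ∈ D.support ∧ p P := by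
    intro P hP
    rw [hD', Finsupp.support_filter, Finset.mem_filter] at hP
    exact hP
  have hD''s : ∀ P ∈ D''.support, P ∈ D.support ∧ ¬ p P := by
    intro P hP
    rw [hD'', Finsupp.support_filter, Finset.mem_filter] at hP
    exact hP
  have horth : ∀ P ∈ D'.support, ∀ P' ∈ D''.support, T.B (T.cls M P) (T.cls M P') = 0 := by
    intro P hP P' hP'
    obtain ⟨hPD, k, hk, hkA⟩ := hD's P hP
    have hkr : (k : ℝ) ≠ 0 := by exact_mod_cast hk.ne'
    rcases (hPe P' (hD''s P' hP').1).resolve_left (hD''s P' hP').2 with ⟨k', hk', hkA'⟩ | ⟨t, ht⟩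
    · have hkr' : (k' : ℝ) ≠ 0 := by exact_mod_cast hk'.ne'
      have := hAA' _ hkA _ hkA'
      rw [map_smul, map_smul, LinearMap.smul_apply, smul_eq_mul, smul_eq_mul] at this
      exact (mul_eq_zero.1 ((mul_eq_zero.1 this).resolve_left hkr')).resolve_left hkr
    · rw [ht, map_smul, hF.symm, hPl P hPD, smul_zero]
  have hq0 : T.B (T.div M D') (T.div M D'') = 0 := by
    rw [map_div]
    refine Finset.sum_eq_zero fun P' hP' => ?_
    rw [hF.symm, map_div, Finset.sum_eq_zero fun P hP => ?_, mul_zero]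
    rw [hF.symm, horth P hP P' hP', mul_zero]
  have hl' : T.B l (T.div M D') = 0 := by
    rw [map_div]
    exact Finset.sum_eq_zero fun P hP => by rw [hPl P (hD's P hP).1, mul_zero]
  have hl'' : T.B l (T.div M D'') = 0 := by
    rw [map_div]
    exact Finset.sum_eq_zero fun P hP => by rw [hPl P (hD''s P hP).1, mul_zero]
  have hcs : T.div M D' + T.div M D'' = ((m₁ * m₂ : ℕ) : ℝ) • l := by
    rw [← div_add, hsum, hc1]
  have hq' : T.B (T.div M D') (T.div M D') = 0 := by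
    have := congrArg (T.B (T.div M D')) hcs
    rw [map_add, hq0, map_smul, hF.symm _ l, hl', smul_zero, add_zero] at this
    exact this
  have hq'' : T.B (T.div M D'') (T.div M D'') = 0 := by
    have := congrArg (T.B (T.div M D'')) hcs
    rw [map_add, hF.symm _ (T.div M D'), hq0, map_smul, hF.symm _ l, hl'', smul_zero,
      zero_add] at this
    exact this
  have hdP : ∀ E : T.Prime M →₀ ℕ, T.Orth (T.period M) (T.div M E) := by
    intro E q hq
    rw [map_div]
    exact Finset.sum_eq_zero fun P _ => by rw [hT.orth M P q hq, mul_zero]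
  obtain ⟨a, ha⟩ := (hodge hF hl (hdP D') hl').resolve_left (by rw [hq']; exact lt_irrefl _)
  obtain ⟨b, hb⟩ := (hodge hF hl (hdP D'') hl'').resolve_left (by rw [hq'']; exact lt_irrefl _)
  -- positivity
  have hpos : ∀ E : T.Prime M →₀ ℕ, E ≠ 0 → 0 < T.B y (T.div M E) := by
    intro E hE
    rw [map_div]
    obtain ⟨P, hP⟩ := Finsupp.support_nonempty_iff.2 hE
    refine Finset.sum_pos' (fun P _ => mul_nonneg (Nat.cast_nonneg _)
      (hT.positive M P y hy).le) ⟨P, hP, mul_pos ?_ (hT.positive M P y hy)⟩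
    exact_mod_cast Nat.pos_of_ne_zero (Finsupp.mem_support_iff.1 hP)
  obtain ⟨P₁, hP₁s, hP₁e⟩ : ∃ P, D P ≠ 0 ∧ T.B e₁ (T.cls M P) ≠ 0 := by
    rw [map_div] at hA₁'
    obtain ⟨P, hP, h1⟩ := Finset.exists_ne_zero_of_sum_ne_zero hA₁'
    exact ⟨P, hs1 P (Finsupp.mem_support_iff.1 hP), right_ne_zero_of_mul h1⟩
  obtain ⟨P₂, hP₂s, hP₂e⟩ : ∃ P, D P ≠ 0 ∧ T.B e₂ (T.cls M P) ≠ 0 := by
    rw [map_div] at hA₂'
    obtain ⟨P, hP, h1⟩ := Finset.exists_ne_zero_of_sum_ne_zero hA₂'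
    exact ⟨P, hs2 P (Finsupp.mem_support_iff.1 hP), right_ne_zero_of_mul h1⟩
  have hp1 : p P₁ := by
    rcases hPe P₁ (Finsupp.mem_support_iff.2 hP₁s) with h | ⟨k, hk, hkA⟩ | ⟨t, ht⟩
    · exact h
    · exfalso
      have hkr : (k : ℝ) ≠ 0 := by exact_mod_cast hk.ne'
      have := hAA' _ he₁ _ hkA
      rw [map_smul, smul_eq_mul] at this
      exact hP₁e ((mul_eq_zero.1 this).resolve_left hkr)
    · exfalso
      apply hP₁e
      rw [ht, map_smul, hF.symm, hle₁, smul_zero]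
  have hp2 : ¬ p P₂ := by
    rintro ⟨k, hk, hkA⟩
    have hkr : (k : ℝ) ≠ 0 := by exact_mod_cast hk.ne'
    have := hAA' _ hkA _ he₂
    rw [map_smul, LinearMap.smul_apply, smul_eq_mul, hF.symm] at this
    exact hP₂e ((mul_eq_zero.1 this).resolve_left hkr)
  have hv1 : D' P₁ = D P₁ := by rw [hD', Finsupp.filter_apply, if_pos hp1]
  have hv1' : D'' P₁ = 0 := by rw [hD'', Finsupp.filter_apply, if_neg (not_not.2 hp1)]
  have hv2 : D'' P₂ = D P₂ := by rw [hD'', Finsupp.filter_apply, if_pos hp2]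
  have hD'0 : D' ≠ 0 := by
    intro h
    rw [h] at hv1
    exact hP₁s hv1.symm
  have hD''0 : D'' ≠ 0 := by
    intro h
    rw [h] at hv2
    exact hP₂s hv2.symm
  have ha0 : 0 < a := by
    have := hpos D' hD'0
    rw [ha, map_smul, smul_eq_mul] at this
    exact (mul_pos_iff_of_pos_right hyl).1 this
  have hb0 : 0 < b := by
    have := hpos D'' hD''0
    rw [hb, map_smul, smul_eq_mul] at this
    exact (mul_pos_iff_of_pos_right hyl).1 this
  obtain ⟨K, hK, hKi⟩ := div_rational hT M D'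
  obtain ⟨K', hK', hKi'⟩ := div_rational hT M D''
  rw [ha] at hKi
  rw [hb] at hKi'
  obtain ⟨r, s, hr, hs, hrs⟩ := rat_coeff hl.1.1 h0 ha0 hK hKi
  obtain ⟨r', s', hr', hs', hrs'⟩ := rat_coeff hl.1.1 h0 hb0 hK' hKi'
  refine ⟨s * s', Nat.mul_pos hs hs', (r * s') • D', (r' * s) • D'', ?_, ?_, ?_⟩
  · intro h
    have h1 := DFunLike.congr_fun h P₁
    rw [Finsupp.smul_apply, Finsupp.smul_apply, hv1, hv1', smul_eq_mul, smul_zero] at h1
    exact mul_ne_zero (Nat.mul_pos hr hs').ne' hP₁s h1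
  · rw [div_nsmul, ha, smul_smul]
    congr 1
    push_cast
    rw [← hrs]
    ring
  · rw [div_nsmul, hb, smul_smul]
    congr 1
    push_cast
    rw [← hrs']
    ring

/-- Projective manifolds with Picard number four. -/
theorem exists_quad (hF : T.toModuli.Facts) {l e₁ e₂ : V n} (hl : IsInt l) (h0 : l ≠ 0)
    (hq : T.B l l = 0) (hn₁ : T.B e₁ e₁ < 0) (hle₁ : T.B l e₁ = 0) (hn₂ : T.B e₂ e₂ < 0)
    (hle₂ : T.B l e₂ = 0) (h12 : T.B e₁ e₂ = 0) :
    ∃ M, T.Projective M ∧ T.NefIsotropic M l ∧ T.Orth (T.period M) e₁ ∧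
      T.Orth (T.period M) e₂ ∧
      ∀ x, IsInt x → T.Orth (T.period M) x → T.B l x = 0 → x ∈ Submodule.span ℝ {l, e₁, e₂} := by
  obtain ⟨z, hz, hzl⟩ := exists_z hF h0
  have hel₁ : T.B e₁ l = 0 := by rw [hF.symm]; exact hle₁
  have hel₂ : T.B e₂ l = 0 := by rw [hF.symm]; exact hle₂
  have hlz : 0 < T.B l z := by rw [hF.symm]; exact hzl
  have hp1 := plane_neg hF (plane_line hF l) (orth_span_singleton.2 hle₁) hn₁
  have hp2 := plane_neg hF hp1 (orth_sup (orth_span_singleton.2 hle₂) h12) hn₂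
  have hlN₂ : l ∈ Submodule.span ℝ {l} ⊔ Submodule.span ℝ {e₁} ⊔ Submodule.span ℝ {e₂} :=
    Submodule.mem_sup_left (Submodule.mem_sup_left (Submodule.subset_span (by simp)))
  obtain ⟨u, v, hu, hv, g1, g2⟩ := plane_hyp hF hp2 (z := z) hlN₂
    (orth_sup (orth_sup (orth_span_singleton.2 hq) hel₁) hel₂) hzl.ne'
  set N : Submodule ℝ (V n) := Submodule.span ℝ {l} ⊔ Submodule.span ℝ {e₁} ⊔
    Submodule.span ℝ {e₂} ⊔ Submodule.span ℝ {z} with hN
  have hlN : l ∈ N := Submodule.mem_sup_left hlN₂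
  have heN₁ : e₁ ∈ N := Submodule.mem_sup_left (Submodule.mem_sup_left
    (Submodule.mem_sup_right (Submodule.subset_span (by simp))))
  have heN₂ : e₂ ∈ N := Submodule.mem_sup_left (Submodule.mem_sup_right
    (Submodule.subset_span (by simp)))
  have hzN : z ∈ N := Submodule.mem_sup_right (Submodule.subset_span (by simp))
  obtain ⟨M, hM1, hM2, hnef, -, -⟩ := exists_marking hF hl h0 hq hlN hu hv g1 g2
  obtain ⟨x, hxN, hx, hxx⟩ := pos_class hF hl hz hq hzl hlN hzN
  refine ⟨M, ⟨x, ⟨hx, (hM1 x hx).2 hxN⟩, hxx⟩, ⟨⟨hl, hM2 l hlN⟩, h0, hq, hnef⟩, hM2 _ heN₁,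
    hM2 _ heN₂, fun y hy hyP hly => ?_⟩
  have hyN := (hM1 y hy).1 hyP
  rw [hN] at hyN
  obtain ⟨y₃, hy₃, w, hw, rfl⟩ := Submodule.mem_sup.1 hyN
  obtain ⟨y₂, hy₂, w₂, hw₂, rfl⟩ := Submodule.mem_sup.1 hy₃
  obtain ⟨y₁, hy₁, w₁, hw₁, rfl⟩ := Submodule.mem_sup.1 hy₂
  obtain ⟨a, rfl⟩ := Submodule.mem_span_singleton.1 hy₁
  obtain ⟨b, rfl⟩ := Submodule.mem_span_singleton.1 hw₁
  obtain ⟨c, rfl⟩ := Submodule.mem_span_singleton.1 hw₂
  obtain ⟨d, rfl⟩ := Submodule.mem_span_singleton.1 hw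
  simp only [map_add, map_smul, smul_eq_mul, hq, hle₁, hle₂, mul_zero, zero_add] at hly
  have hd : d = 0 := (mul_eq_zero.1 hly).resolve_right hlz.ne'
  rw [hd, zero_smul, add_zero]
  refine Submodule.add_mem _ (Submodule.add_mem _ (Submodule.smul_mem _ _ ?_)
    (Submodule.smul_mem _ _ ?_)) (Submodule.smul_mem _ _ ?_) <;>
  exact Submodule.subset_span (by simp)

/-- The existence of projective manifolds with reducible sets of exceptional classes. -/
theorem exists_reducible (hT : T.Facts) {l : V n} (hl : IsInt l) (h0 : l ≠ 0) (hq : T.B l l = 0)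
    (hp : T.ExceptionalPair l) :
    ∃ M, T.Projective M ∧ T.NefIsotropic M l ∧ T.Reducible M l := by
  have hF : T.toModuli.Facts := hT.bundles.toFacts
  obtain ⟨e₁, e₂, he₁, he₂, hle₁, hle₂, h12, hex⟩ := hp
  have hel₁ : T.B e₁ l = 0 := by rw [hF.symm]; exact hle₁
  obtain ⟨M, hpr, hM, hP₁, hP₂, hspan⟩ := exists_quad hF hl h0 hq he₁.1 hle₁ he₂.1 hle₂ h12
  refine ⟨M, hpr, hM, T.Exc M l ∩ Submodule.span ℝ {l, e₁}, T.Exc M l ∩ Submodule.span ℝ {l, e₂},
    ⟨e₁, ⟨he₁, ⟨he₁.2.1.1, hP₁⟩, hle₁⟩, Submodule.subset_span (by simp)⟩,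
    ⟨e₂, ⟨he₂, ⟨he₂.2.1.1, hP₂⟩, hle₂⟩, Submodule.subset_span (by simp)⟩, ?_, ?_⟩
  · rw [← Set.inter_union_distrib_left]
    symm
    rw [Set.inter_eq_left]
    intro e he
    exact hex e he.1 (hspan e he.2.1.1 he.2.1.2 he.2.2)
  · rintro x ⟨-, hx⟩ y ⟨-, hy⟩
    obtain ⟨a, b, rfl⟩ := Submodule.mem_span_pair.1 hx
    obtain ⟨c, d, rfl⟩ := Submodule.mem_span_pair.1 hy
    simp only [map_add, LinearMap.add_apply, map_smul, LinearMap.smul_apply, smul_eq_mul, hq,
      hle₂, hel₁, h12]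
    ring

/-- **Semiampleness.** -/
theorem semiample_of_reducible (hT : T.Facts) (hdim : T.dim ≤ 4 ∨ ∀ m < T.dim, T.good m)
    {M₀ : T.Mk} {l : V n} (hpr : T.Projective M₀) (hl : T.NefIsotropic M₀ l)
    (hred : T.Reducible M₀ l) {M : T.Mk} (hM : T.NefIsotropic M l) : T.semiample M l := by
  have hgood : ∀ m < T.dim, T.good m := by
    rcases hdim with h | h
    · intro m hm
      exact hT.good_three m (by omega)
    · exact h
  exact hT.bundles.matsushita M₀ M l hl hM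
    (hT.abundance hgood M₀ l hpr hl (moving hT hpr hl hred))

end Pool.Agent.H93.TR
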