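import Pool.Agent.H93.Lib.R_pool_sql_team_seeded_3997aac3.Q50.HK.LMain
import Pool.Agent.H93.Lib.R_pool_sql_team_seeded_3997aac3.Q50.HK.Para

/-!
# Isotropic classes far from a given one, in a given orbit
-/

set_option autoImplicit false

universe u

namespace Pool.Agent.H93.TR

open Pool.Agent.Q50.HK Pool.Agent.Q50.HK.Moduli

variable {n : ℕ} {T : Moduli.{u} n}

/-- Approximation by integral classes in an open cone. -/
theorem approxU {N : Submodule ℝ (V n)} {F : V n →ₗ[ℝ] V n} (hF : T.RatProj N F) {x : V n}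
    (hx : T.Orth N x) {U : Set (V n)} (hU : IsOpen U) (hxU : x ∈ U)
    (hc : ∀ c : ℝ, 0 < c → ∀ v ∈ U, c • v ∈ U) : ∃ y, IsInt y ∧ T.Orth N y ∧ y ∈ U := by
  obtain ⟨D, hD, hint⟩ := hF.int
  have hcont : Continuous F := LinearMap.continuous_of_finiteDimensional F
  have hO : IsOpen (F ⁻¹' U) := hU.preimage hcont
  obtain ⟨D', y, hD', hy, hyO⟩ := exists_rational hO ⟨x, by
    change F x ∈ U
    rwa [hF.id x hx]⟩
  have hyO' : F ((D' : ℝ)⁻¹ • y) ∈ U := hyO
  have hDr : (0 : ℝ) < D := by exact_mod_cast hD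
  have hDr' : (0 : ℝ) < D' := by exact_mod_cast hD'
  refine ⟨(D : ℝ) • F y, hint y hy, ?_, ?_⟩
  · intro p hp
    rw [map_smul, hF.orth y p hp, smul_zero]
  · have h1 := hc (D * D') (by positivity) _ hyO'
    rw [map_smul, smul_smul] at h1
    rwa [mul_assoc, mul_inv_cancel₀ hDr'.ne', mul_one] at h1

/-- A class of positive square orthogonal to two given ones. -/
theorem pos_perp (hT : T.Facts) (x y : V n) : ∃ u, T.B x u = 0 ∧ T.B y u = 0 ∧ 0 < T.B u u := by
  obtain ⟨W, hW3, hWp, hWn⟩ := hT.signature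
  have h2 : LinearMap.ker (((T.B x).comp W.subtype).prod ((T.B y).comp W.subtype)) ≠ ⊥ := by
    apply LinearMap.ker_ne_bot_of_finrank_lt
    rw [Module.finrank_prod, Module.finrank_self, hW3]
    norm_num
  obtain ⟨v, hv, hv0⟩ := (Submodule.ne_bot_iff _).1 h2
  exact ⟨v, congrArg Prod.fst (LinearMap.mem_ker.1 hv), congrArg Prod.snd (LinearMap.mem_ker.1 hv),
    hWp v v.2 (by simpa using hv0)⟩

/-- A class of negative square orthogonal to `m` and to `w ⊥ m` with `w² > 0`. -/
theorem neg_perp (hT : T.Facts) (hn : 5 ≤ n) {w m : V n} (hw : 0 < T.B w w) (hwm : T.B w m = 0) :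
    ∃ e, T.B w e = 0 ∧ T.B m e = 0 ∧ T.B e e < 0 := by
  obtain ⟨e, he, hee⟩ := neg_line hT hn m
  have hmw : T.B m w = 0 := by rw [hT.symm]; exact hwm
  refine ⟨e - (T.B w e / T.B w w) • w, ?_, ?_, ?_⟩
  · rw [map_sub, map_smul, smul_eq_mul]
    field_simp
    ring
  · rw [map_sub, map_smul, he, hmw]
    simp
  · have e1 : T.B (e - (T.B w e / T.B w w) • w) (e - (T.B w e / T.B w w) • w) =
        T.B e e - T.B w e ^ 2 / T.B w w := by
      simp only [map_sub, LinearMap.sub_apply, map_smul, LinearMap.smul_apply, smul_eq_mul,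
        hT.symm e w]
      field_simp
      ring
    rw [e1]
    have : 0 ≤ T.B w e ^ 2 / T.B w w := by positivity
    linarith

theorem isInt_smul_sub {x y : V n} (hx : IsInt x) (hy : IsInt y) {a b : ℝ} (ha : ∃ k : ℤ, a = k)
    (hb : ∃ k : ℤ, b = k) : IsInt (a • x - b • y) := by
  obtain ⟨p, rfl⟩ := ha
  obtain ⟨q, rfl⟩ := hb
  exact (hx.zsmul p).sub (hy.zsmul q)

theorem not_mem_line (hT : T.Facts) {w x : V n} (hw : 0 < T.B w w) (hx : T.B x x = 0)
    (hx0 : x ≠ 0) : ∃ s, T.Orth (Submodule.span ℝ {w}) s ∧ T.B s x ≠ 0 := by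
  by_contra hcon
  push Not at hcon
  have h1 := mem_of_orth hT (Submodule.span ℝ {w}) hcon
  obtain ⟨c, rfl⟩ := Submodule.mem_span_singleton.1 h1
  simp only [map_smul, LinearMap.smul_apply, smul_eq_mul] at hx
  rcases mul_eq_zero.1 hx with h | h
  · exact hx0 (by rw [h, zero_smul])
  · rcases mul_eq_zero.1 h with h | h
    · exact hx0 (by rw [h, zero_smul])
    · exact hw.ne' h

/-- The auxiliary classes. -/
theorem exists_aux (hT : T.Facts) (hn : 5 ≤ n) {l l₀ : V n} (hl : IsInt l) (h0 : l ≠ 0)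
    (hq : T.B l l = 0) (hl₀ : IsInt l₀) (h0' : l₀ ≠ 0) (hq' : T.B l₀ l₀ = 0)
    (hne : ∀ c : ℝ, l₀ ≠ c • l) :
    ∃ w m a, IsInt w ∧ IsInt m ∧ IsInt a ∧ T.B w l = 0 ∧ T.B w m = 0 ∧ T.B w a = 0 ∧
      T.B m m = 0 ∧ T.B m a = 0 ∧ T.B w l₀ ≠ 0 ∧ 0 < T.B l m ∧ T.B a a * T.B m l₀ < 0 := by
  obtain ⟨z₀, hz₀, hzl₀⟩ := exists_z hT h0
  -- the class `w`
  have hstep1 : ∃ w, IsInt w ∧ T.B l w = 0 ∧ 0 < T.B w w ∧ T.B w l₀ ≠ 0 := by
    obtain ⟨F, hF⟩ := ratProj_line hT hl hz₀ hzl₀.ne'
    obtain ⟨u, v, hu, hv, g1, g2⟩ := plane_line hT l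
    obtain ⟨w, hw, hwU, hw0⟩ := generic T (T.B.orthogonal (Submodule.span ℝ {l})) {l₀}
      (Set.countable_singleton _) (by
        intro x hx
        rw [Set.mem_singleton_iff] at hx
        subst hx
        by_contra hcon
        push Not at hcon
        have h1 := mem_of_orth hT (Submodule.span ℝ {l}) (x := x) fun s hs =>
          hcon s fun p hp => hs p hp
        obtain ⟨c, hc⟩ := Submodule.mem_span_singleton.1 h1
        exact hne c hc.symm) (U := {v | 0 < T.B v v})
      (isOpen_lt continuous_const (continuous_form T)) (u := u) (fun p hp => hu p hp) g1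
    have hO : IsOpen {v : V n | 0 < T.B v v ∧ T.B v l₀ ≠ 0} :=
      (isOpen_lt continuous_const (continuous_form T)).inter
        (isOpen_ne_fun (continuous_left T l₀) continuous_const)
    obtain ⟨y, hy, hyN, hyU1, hyU2⟩ := approxU hF (x := w) (fun p hp => hw p hp) hO
      ⟨hwU, hw0 l₀ rfl⟩ (by
        rintro c hc v ⟨hv1, hv2⟩
        refine ⟨?_, ?_⟩
        · simp only [map_smul, LinearMap.smul_apply, smul_eq_mul]
          positivity
        · simp only [map_smul, LinearMap.smul_apply, smul_eq_mul]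
          exact mul_ne_zero hc.ne' hv2)
    exact ⟨y, hy, orth_span_singleton.1 hyN, hyU1, hyU2⟩
  obtain ⟨w, hw, hlw, hww, hwl₀⟩ := hstep1
  have hwl : T.B w l = 0 := by rw [hT.symm]; exact hlw
  obtain ⟨F, hF⟩ := ratProj_line hT hw hw hww.ne'
  -- the class `z`
  set P : V n → ℝ := fun z => 2 * T.B z l * T.B z l₀ - T.B z z * T.B l l₀ with hP
  have hPc : Continuous P := by
    have h1 := continuous_left T l
    have h2 := continuous_left T l₀
    have h3 := continuous_form T
    fun_prop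
  have hstep2 : ∃ z, T.Orth (Submodule.span ℝ {w}) z ∧ T.B z l ≠ 0 ∧ P z ≠ 0 := by
    by_cases hll : T.B l l₀ = 0
    · obtain ⟨z, hz, -, hz0⟩ := generic T (T.B.orthogonal (Submodule.span ℝ {w})) {l, l₀}
        ((Set.countable_singleton _).insert _) (by
          rintro x (rfl | hx)
          · obtain ⟨s, hs, hsx⟩ := not_mem_line hT hww hq h0
            exact ⟨s, fun p hp => hs p hp, hsx⟩
          · rw [Set.mem_singleton_iff] at hx
            subst hx
            obtain ⟨s, hs, hsx⟩ := not_mem_line hT hww hq' h0'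
            exact ⟨s, fun p hp => hs p hp, hsx⟩) (U := Set.univ) isOpen_univ (u := 0)
        (Submodule.zero_mem _) trivial
      refine ⟨z, fun p hp => hz p hp, hz0 l (by simp), ?_⟩
      rw [hP]
      simp only [hll, mul_zero, sub_zero]
      exact mul_ne_zero (mul_ne_zero two_ne_zero (hz0 l (by simp))) (hz0 l₀ (by simp))
    · obtain ⟨u, hwu, hlu, huu⟩ := pos_perp hT w l
      have hPu : P u ≠ 0 := by
        rw [hP]
        simp only
        rw [hT.symm u l, hlu]
        simp only [mul_zero, zero_mul, zero_sub, ne_eq, neg_eq_zero, mul_eq_zero, not_or]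
        exact ⟨huu.ne', hll⟩
      obtain ⟨z, hz, hzU, hz0⟩ := generic T (T.B.orthogonal (Submodule.span ℝ {w})) {l}
        (Set.countable_singleton _) (by
          intro x hx
          rw [Set.mem_singleton_iff] at hx
          subst hx
          obtain ⟨s, hs, hsx⟩ := not_mem_line hT hww hq h0
          exact ⟨s, fun p hp => hs p hp, hsx⟩) (U := {z | P z ≠ 0})
        (isOpen_ne_fun hPc continuous_const) (u := u)
        (fun p hp => orth_span_singleton.2 hwu p hp) hPu
      exact ⟨z, fun p hp => hz p hp, hz0 l rfl, hzU⟩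
  obtain ⟨zr, hzr, hzrl, hzrP⟩ := hstep2
  have hO : IsOpen {z : V n | T.B z l ≠ 0 ∧ P z ≠ 0} :=
    (isOpen_ne_fun (continuous_left T l) continuous_const).inter
      (isOpen_ne_fun hPc continuous_const)
  obtain ⟨z, hz, hzN, hzl, hzP⟩ := approxU hF (x := zr) hzr hO ⟨hzrl, hzrP⟩ (by
    rintro c hc v ⟨hv1, hv2⟩
    refine ⟨?_, ?_⟩
    · simp only [map_smul, LinearMap.smul_apply, smul_eq_mul]
      exact mul_ne_zero hc.ne' hv1
    · have e : P (c • v) = c ^ 2 * P v := by
        rw [hP]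
        simp only [map_smul, LinearMap.smul_apply, smul_eq_mul]
        ring
      change P (c • v) ≠ 0
      rw [e]
      exact mul_ne_zero (by positivity) hv2)
  have hwz : T.B w z = 0 := orth_span_singleton.1 hzN
  -- the class `m`
  set m : V n := (2 * T.B z l) • z - T.B z z • l with hm
  have hmint : IsInt m := isInt_smul_sub hz hl (by
    obtain ⟨k, hk⟩ := hT.integral z l hz hl
    exact ⟨2 * k, by rw [hk]; push_cast; ring⟩) (hT.integral z z hz hz)
  have hmm : T.B m m = 0 := by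
    rw [hm]
    simp only [map_sub, LinearMap.sub_apply, map_smul, LinearMap.smul_apply, smul_eq_mul, hq,
      hT.symm l z]
    ring
  have hml : T.B m l = 2 * T.B z l ^ 2 := by
    rw [hm]
    simp only [map_sub, LinearMap.sub_apply, map_smul, LinearMap.smul_apply, smul_eq_mul, hq]
    ring
  have hml0 : 0 < T.B m l := by
    rw [hml]
    positivity
  have hmw : T.B w m = 0 := by
    rw [hm, map_sub, map_smul, map_smul, hwz, hwl]
    simp
  have hml₀ : T.B m l₀ = P z := by
    rw [hm, hP]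
    simp only [map_sub, LinearMap.sub_apply, map_smul, LinearMap.smul_apply, smul_eq_mul]
  -- the class `a`
  obtain ⟨F₂, hF₂⟩ := ratProj_step hT hF hmint hl hml0.ne' (orth_span_singleton.2 hwl)
  have hstep3 : ∃ a, T.Orth (Submodule.span ℝ {w} ⊔ Submodule.span ℝ {m}) a ∧
      0 < -T.B m l₀ * T.B a a := by
    rcases lt_or_gt_of_ne (show T.B m l₀ ≠ 0 by rw [hml₀]; exact hzP) with h | h
    · obtain ⟨a, h1, h2, h3⟩ := pos_perp hT w m
      exact ⟨a, orth_sup (orth_span_singleton.2 h1) h2, mul_pos (by linarith) h3⟩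
    · obtain ⟨a, h1, h2, h3⟩ := neg_perp hT hn hww hmw
      refine ⟨a, orth_sup (orth_span_singleton.2 h1) h2, ?_⟩
      have := mul_pos h (neg_pos.2 h3)
      linarith
  obtain ⟨ar, har, harp⟩ := hstep3
  obtain ⟨a, ha, haN, haa⟩ := approx hF₂ har harp
  refine ⟨w, m, a, hw, hmint, ha, hwl, hmw, haN w (Submodule.mem_sup_left
    (Submodule.subset_span (by simp))), hmm, haN m (Submodule.mem_sup_right
    (Submodule.subset_span (by simp))), hwl₀, by rw [hT.symm]; exact hml0, by linarith⟩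

end Pool.Agent.H93.TR
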