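import Pool.Agent.H93.TR.Orb

/-!
# Manifolds with Picard number two and two isotropic nef classes
-/

set_option autoImplicit false

universe u

namespace Pool.Agent.H93.TR

open Pool.Agent.Q50.HK Pool.Agent.Q50.HK.Moduli

variable {n : ℕ}

/-- `M` is projective with Picard number two, and its nef cone is spanned by the classes `l`, `l'` of two
nef line bundles with `q(l) = q(l') = 0`, `q(l, l') > 0`. -/
structure TwoRays (T : Moduli.{u} n) (M : T.Mk) (l l' : V n) : Prop where
  picard : T.picard M = 2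
  projective : T.Projective M
  left : T.NefIsotropic M l
  right : T.NefIsotropic M l'
  product : 0 < T.B l l'
  span : ∀ x, T.NS M x → x ∈ Submodule.span ℝ {l, l'}
  nef : ∀ a b : ℝ, T.Nef M (a • l + b • l') ↔ 0 ≤ a ∧ 0 ≤ b

section
variable {T : Moduli.{u} n}

theorem nef_add {M : T.Mk} {x y : V n} (hx : T.Nef M x) (hy : T.Nef M y) : T.Nef M (x + y) := by
  intro z hz
  rw [add_assoc]
  exact hx _ (hy z hz)

theorem nef_smul (hT : T.Facts) {M : T.Mk} {x : V n} (hx : T.Nef M x) {c : ℝ} (hc : 0 ≤ c) :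
    T.Nef M (c • x) := by
  rcases hc.eq_or_lt with rfl | hc
  · intro z hz
    rwa [zero_smul, zero_add]
  · intro z hz
    have h1 := hx _ (kahler_smul hT hz (inv_pos.2 hc))
    have h2 := kahler_smul hT h1 hc
    rwa [smul_add, smul_smul, mul_inv_cancel₀ hc.ne', one_smul] at h2

/-- The product of a nef class with a nef isotropic class is not negative. -/
theorem nef_mul (hT : T.Facts) {M : T.Mk} {x l : V n} (hx : T.Nef M x) (hl : T.NefIsotropic M l) :
    0 ≤ T.B x l := by
  obtain ⟨y, hy⟩ := hT.nonempty M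
  have h1 : ∀ k : ℕ, (k : ℝ) • x + y ∈ T.kahler M := by
    intro k
    induction k with
    | zero => simpa using hy
    | succ k ih =>
      have := hx _ ih
      convert this using 1
      push_cast
      module
  by_contra hneg
  push Not at hneg
  obtain ⟨k, hk⟩ := exists_nat_ge (T.B y l / (-T.B x l))
  have h2 := nef_pos hT hl (h1 k)
  have h3 : T.B y l ≤ k * (-T.B x l) := by
    rwa [div_le_iff₀ (by linarith)] at hk
  simp only [map_add, LinearMap.add_apply, map_smul, LinearMap.smul_apply, smul_eq_mul] at h2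
  linarith

theorem not_mem_of_product {l l' : V n} (hq : T.B l l = 0) (hll : 0 < T.B l l') :
    l' ∉ Submodule.span ℝ {l} := by
  intro h
  obtain ⟨c, rfl⟩ := Submodule.mem_span_singleton.1 h
  rw [map_smul, hq, smul_zero] at hll
  exact lt_irrefl _ hll

/-- **Existence of a manifold with Picard number two and two isotropic nef classes.** -/
theorem exists_two_rays (hT : T.Facts) {C : ℝ} (hC : ∀ d ∈ T.mbm, -C ≤ T.B d d) {l l' : V n}
    (hl : IsInt l) (hl' : IsInt l') (hq : T.B l l = 0) (hq' : T.B l' l' = 0)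
    (hll : 0 < T.B l l') (hd : ∀ d, IsInt d → d ∈ Submodule.span ℝ {l, l'} →
      0 ≤ T.B d d ∨ T.B d d < -C) : ∃ M, TwoRays T M l l' := by
  have h0 : l ≠ 0 := by
    rintro rfl
    simp at hll
  have h0' : l' ≠ 0 := by
    rintro rfl
    simp at hll
  have hll' : 0 < T.B l' l := by rw [hT.symm]; exact hll
  set N : Submodule ℝ (V n) := Submodule.span ℝ {l} ⊔ Submodule.span ℝ {l'} with hN
  have hNs : N = Submodule.span ℝ {l, l'} := by
    rw [hN, ← Submodule.span_union]
    rfl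
  have hlN : l ∈ N := Submodule.mem_sup_left (Submodule.subset_span (by simp))
  have hlN' : l' ∈ N := Submodule.mem_sup_right (Submodule.subset_span (by simp))
  obtain ⟨u, v, hu, hv, g1, g2⟩ := plane_hyp hT (plane_line hT l)
    (Submodule.subset_span (by simp)) (orth_span_singleton.2 hq) hll'.ne'
  obtain ⟨M, hM1, hM2, hnef, hyl, -⟩ := exists_marking hT hl h0 hq hlN hu hv g1 g2
  have hwall : ∀ d ∈ T.mbm, ¬ T.Orth (T.period M) d := by
    intro d hdm hdP
    obtain ⟨hdi, hdd⟩ := hT.mbm d hdm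
    have h1 := (hM1 d hdi).1 hdP
    rw [hNs] at h1
    rcases hd d hdi h1 with h | h
    · linarith
    · have := hC d hdm
      linarith
  obtain ⟨x₀, hx₀⟩ := hT.nonempty M
  obtain ⟨hx₀r, hch⟩ := hT.kahler M x₀ hx₀
  have hK : ∀ y, y ∈ T.kahler M ↔ T.Orth (T.period M) y ∧ 0 < T.B y y ∧ 0 < T.B x₀ y := by
    intro y
    rw [hch]
    constructor
    · rintro ⟨h1, h2⟩
      exact ⟨h1.1, h1.2.1, h2.1⟩
    · rintro ⟨h1, h2, h3⟩
      exact ⟨⟨h1, h2, fun d hdm hdP => absurd hdP (hwall d hdm)⟩, h3,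
        fun d hdm hdP => absurd hdP (hwall d hdm)⟩
  obtain ⟨hp2, hpp⟩ := hT.period M
  have hlP := hM2 l hlN
  have hlP' := hM2 l' hlN'
  -- the class `l + l'`
  have hx1P : T.Orth (T.period M) (l + l') := by
    intro p hp
    rw [map_add, hlP p hp, hlP' p hp, add_zero]
  have hx1 : T.B (l + l') (l + l') = 2 * T.B l l' := by
    simp only [map_add, LinearMap.add_apply, hq, hq', hT.symm l' l]
    ring
  have hx1l : T.B (l + l') l = T.B l l' := by
    simp only [map_add, LinearMap.add_apply, hq, hT.symm l' l]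
    ring
  have hx1l' : T.B (l + l') l' = T.B l l' := by
    simp only [map_add, LinearMap.add_apply, hq']
    ring
  have hyl' : ∀ y ∈ T.kahler M, 0 < T.B y l' := by
    intro y hy
    obtain ⟨h1, h2, h3⟩ := (hK y).1 hy
    have h4 := pos_of_pos' hT hp2 hpp hx1P (by rw [hx1]; linarith) h1 h2 hlP hq
      (by rw [hx1l]; exact hll) (hyl y hy)
    exact pos_of_pos hT hp2 hpp hx1P (by rw [hx1]; linarith) h1 h2 hlP' hq'
      (by rw [hx1l']; exact hll) h4
  have hnef' : T.Nef M l' := by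
    intro y hy
    obtain ⟨h1, h2, h3⟩ := (hK y).1 hy
    have h4 := hyl' y hy
    have h5 := hyl' x₀ hx₀
    refine (hK _).2 ⟨?_, ?_, ?_⟩
    · intro p hp
      rw [map_add, hlP' p hp, h1 p hp, add_zero]
    · have e : T.B (l' + y) (l' + y) = T.B y y + 2 * T.B y l' := by
        simp only [map_add, LinearMap.add_apply, hq', hT.symm l' y]
        ring
      rw [e]
      linarith
    · rw [map_add]
      linarith
  have hleft : T.NefIsotropic M l := ⟨⟨hl, hlP⟩, h0, hq, hnef⟩
  have hright : T.NefIsotropic M l' := ⟨⟨hl', hlP'⟩, h0', hq', hnef'⟩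
  have hspan : Submodule.span ℝ {x : V n | T.NS M x} = N := by
    apply le_antisymm
    · rw [Submodule.span_le]
      intro x hx
      exact (hM1 x hx.1).1 hx.2
    · rw [hNs, Submodule.span_le]
      rintro x (rfl | hx)
      · exact Submodule.subset_span ⟨hl, hlP⟩
      · rw [Set.mem_singleton_iff] at hx
        rw [hx]
        exact Submodule.subset_span ⟨hl', hlP'⟩
  refine ⟨M, ⟨?_, ⟨l + l', ⟨hl.add hl', hx1P⟩, by rw [hx1]; linarith⟩, hleft, hright, hll,
    fun x hx => ?_, fun a b => ⟨fun h => ?_, fun h => ?_⟩⟩⟩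
  · rw [Moduli.picard, hspan, hN, finrank_sup (not_mem_of_product hq hll),
      finrank_span_singleton h0]
  · rw [← hNs]
    exact (hM1 x hx.1).1 hx.2
  · have h1 := nef_mul hT h hleft
    have h2 := nef_mul hT h hright
    simp only [map_add, LinearMap.add_apply, map_smul, LinearMap.smul_apply, smul_eq_mul, hq, hq',
      mul_zero, zero_add, add_zero] at h1 h2
    exact ⟨(mul_nonneg_iff_of_pos_right hll).1 h2, (mul_nonneg_iff_of_pos_right hll').1 h1⟩
  · exact nef_add (nef_smul hT hnef h.1) (nef_smul hT hnef' h.2)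

end

section
variable {T : Bundles.{u} n}

/-- **The list.** -/
theorem finite_list (hn : 5 ≤ n) (hT : T.Facts) (hmon : FiniteIndex T.toModuli T.mon) {M₀ : T.Mk}
    {l₀ : V n} (h0 : T.NefIsotropic M₀ l₀) (hs : T.semiample M₀ l₀) :
    ∃ (m : ℕ) (M : Fin m → T.Mk) (l l' : Fin m → V n),
      (∀ i, TwoRays T.toModuli (M i) (l i) (l' i) ∧ T.semiample (M i) (l' i)) ∧
      ((∀ M l, T.NefIsotropic M l → T.semiample M l) ↔ ∀ i, T.semiample (M i) (l i)) := by
  have hF : T.toModuli.Facts := hT.toFacts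
  obtain ⟨C, hC⟩ := hT.bounded
  obtain ⟨S, hS, horb⟩ := hT.orbits
  have hex : ∀ s : S, ∃ M l', TwoRays T.toModuli M s l' ∧ T.semiample M l' := by
    intro s
    obtain ⟨hsi, hs0, hsq⟩ := hS s s.2
    obtain ⟨ψ, hψ, h1, h2, h3, h4⟩ := exists_move hF hn hmon hsi hs0 hsq h0.1.1 h0.2.1 h0.2.2.1
    obtain ⟨φ, hφ, h5, h6, h7, h8⟩ := exists_far hF hn hmon hsi hs0 hsq h1 h2 h3 h4 C
    obtain ⟨M, hM⟩ := exists_two_rays hF hC hsi h5 hsq h6 h7 h8
    obtain ⟨M₁, hM₁, hn₁⟩ := hT.relabel ψ hψ M₀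
    obtain ⟨M₂, hM₂, hn₂⟩ := hT.relabel φ hφ M₁
    have h9 := hn₂ _ (hn₁ _ h0)
    have h10 : T.semiample M₂ (φ (ψ l₀)) := by
      rw [hM₂, hM₁]
      exact hs
    exact ⟨M, φ (ψ l₀), hM, hT.matsushita _ _ _ h9 hM.right h10⟩
  choose M l' hM using hex
  let e : Fin (Fintype.card S) ≃ S := (Fintype.equivFin S).symm
  refine ⟨Fintype.card S, fun i => M (e i), fun i => (e i : V n), fun i => l' (e i),
    fun i => hM (e i), ?_⟩
  constructor
  · intro h i
    exact h _ _ (hM (e i)).1.left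
  · intro h M' l hl
    obtain ⟨s, hs, φ, hφ, k, hk, hφl⟩ := horb l hl.1.1 hl.2.1 hl.2.2.1
    obtain ⟨M'', hM'', hnef⟩ := hT.relabel φ hφ M'
    have h2 := hnef l hl
    rw [hφl] at h2
    have h3 := nef_of_smul hF (hS s hs).1 hk h2
    have h4 : T.semiample (M ⟨s, hs⟩) s := by
      have := h (e.symm ⟨s, hs⟩)
      simpa using this
    have h5 := hT.matsushita _ M'' s (hM ⟨s, hs⟩).1.left h3 h4
    rw [← hM'', hφl, hT.power M'' s k hk]
    exact h5

/-- **The criterion.** -/
theorem criterion (hn : 5 ≤ n) (hT : T.Facts) (hmon : FiniteIndex T.toModuli T.mon)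
    (hiso : ∃ l, IsInt l ∧ l ≠ 0 ∧ T.B l l = 0) :
    (∀ M l, T.NefIsotropic M l → T.semiample M l) ↔
      (∃ M l, T.NefIsotropic M l ∧ T.semiample M l) ∧
      ∀ M l l', TwoRays T.toModuli M l l' → T.semiample M l' → T.semiample M l := by
  constructor
  · intro h
    obtain ⟨l, hl, h0, hq⟩ := hiso
    obtain ⟨M, -, -, hM⟩ := exists_picard hT.toFacts hl h0 hq (r := 1) le_rfl (by omega)
    exact ⟨⟨M, l, hM, h M l hM⟩, fun M l l' hM _ => h M l hM.left⟩
  · rintro ⟨⟨M₀, l₀, h0, hs⟩, h⟩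
    obtain ⟨m, M, l, l', hM, hiff⟩ := finite_list hn hT hmon h0 hs
    exact hiff.2 fun i => h _ _ _ (hM i).1 (hM i).2

end

end Pool.Agent.H93.TR
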