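import Pool.Agent.H93.TR.Lat

/-!
# An isotropic class in a given orbit, with no integral classes of small negative square in the plane
-/

set_option autoImplicit false

universe u

namespace Pool.Agent.H93.TR

open Pool.Agent.Q50.HK Pool.Agent.Q50.HK.Moduli

variable {n : ℕ} {T : Moduli.{u} n}

/-- `mon` has finite index: there is a common `k ≥ 1` such that the `k`-th powers of all isometries of
the lattice are in `mon`. -/
def FiniteIndex (T : Moduli.{u} n) (mon : Set (V n ≃ₗ[ℝ] V n)) : Prop :=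
  ∃ k : ℕ, 0 < k ∧ ∀ φ : V n ≃ₗ[ℝ] V n, (∀ x y, T.B (φ x) (φ y) = T.B x y) →
    (∀ x, IsInt x ↔ IsInt (φ x)) → φ ^ k ∈ mon

/-- Powers of transvections are in the monodromy group. -/
theorem tv_mem (hT : T.Facts) {mon : Set (V n ≃ₗ[ℝ] V n)} {k : ℕ}
    (hk : ∀ φ : V n ≃ₗ[ℝ] V n, (∀ x y, T.B (φ x) (φ y) = T.B x y) →
      (∀ x, IsInt x ↔ IsInt (φ x)) → φ ^ k ∈ mon) {m a : V n} (hm : IsInt m) (ha : IsInt a)
    (hmm : T.B m m = 0) (hma : T.B m a = 0) : ∃ φ ∈ mon,
      (∀ x, φ x = tv T.B m ((2 * k : ℝ) • a) x) ∧ ∀ x, IsInt x → IsInt (φ x) := by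
  have h2 : T.B m ((2 : ℝ) • a) = 0 := by rw [map_smul, hma, smul_zero]
  set φ := tvE hT m ((2 : ℝ) • a) hmm h2 with hφ
  have hint : ∀ x, IsInt x → IsInt (φ x) := fun x hx => tv_int hT hm ha hx
  have hint' : ∀ x, IsInt x ↔ IsInt (φ x) := by
    intro x
    refine ⟨hint x, fun h => ?_⟩
    have h3 : IsInt (tv T.B m ((2 : ℝ) • (-a)) (φ x)) := tv_int hT hm ha.neg h
    rw [hφ, tvE_apply, tv_comp hT hmm (by rw [smul_neg, map_neg, h2, neg_zero]) h2] at h3
    rw [smul_neg, neg_add_cancel, tv_zero] at h3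
    exact h3
  have hpow : ∀ x, (φ ^ k) x = tv T.B m ((2 * k : ℝ) • a) x := by
    intro x
    rw [hφ, tvE_pow hT m _ hmm h2, smul_smul, mul_comm (k : ℝ) 2]
  have hpint : ∀ (j : ℕ) x, IsInt x → IsInt ((φ ^ j) x) := by
    intro j
    induction j with
    | zero => intro x hx; simpa using hx
    | succ j ih =>
      intro x hx
      rw [pow_succ, LinearEquiv.mul_apply]
      exact ih _ (hint x hx)
  exact ⟨φ ^ k, hk φ (fun x y => tv_isometry hT hmm h2 x y) hint', hpow, hpint k⟩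

/-- The integral classes in the plane of two isotropic classes with large product. -/
theorem plane_bound (hT : T.Facts) {l l' w z : V n} (hq : T.B l l = 0) (hq' : T.B l' l' = 0)
    (hl : IsInt l) (hl' : IsInt l') (hw : IsInt w) (hz : IsInt z) (hwl : T.B w l = 0)
    (hwl' : T.B w l' ≠ 0) (hzl : 0 < T.B z l) {C : ℝ} (hC : 0 ≤ C)
    (hQ : C * (T.B w l' ^ 2 * T.B z l) < 2 * T.B l l') {d : V n} (hd : IsInt d)
    (hdl : d ∈ Submodule.span ℝ {l, l'}) : 0 ≤ T.B d d ∨ T.B d d < -C := by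
  obtain ⟨x, y, rfl⟩ := Submodule.mem_span_pair.1 hdl
  obtain ⟨g, hg⟩ := hT.integral w l' hw hl'
  obtain ⟨h, hh⟩ := hT.integral z l hz hl
  obtain ⟨h', hh'⟩ := hT.integral z l' hz hl'
  obtain ⟨p, hp⟩ := hT.integral w _ hw hd
  obtain ⟨q, hq2⟩ := hT.integral z _ hz hd
  have e1 : y * g = p := by
    rw [← hp, map_add, map_smul, map_smul, hwl, hg]
    simp
  have e2 : x * h + y * h' = q := by
    rw [← hq2, map_add, map_smul, map_smul, hh, hh']
    simp
  have e3 : T.B (x • l + y • l') (x • l + y • l') = 2 * x * y * T.B l l' := by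
    simp only [map_add, LinearMap.add_apply, map_smul, LinearMap.smul_apply, smul_eq_mul, hq, hq',
      hT.symm l' l]
    ring
  have e4 : (g : ℝ) * (x * h) = ((g * q - p * h' : ℤ) : ℝ) := by
    push_cast
    rw [← e2, ← e1]
    ring
  set Q := T.B l l' with hQdef
  have hg0 : (g : ℝ) ≠ 0 := by rw [← hg]; exact hwl'
  have hh0 : (0 : ℝ) < h := by rw [← hh]; exact hzl
  have e5 : (g : ℝ) ^ 2 * h * T.B (x • l + y • l') (x • l + y • l') =
      2 * (((g * q - p * h') * p : ℤ) : ℝ) * Q := by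
    rw [e3]
    push_cast
    have e4' : (g : ℝ) * (x * h) = (g : ℝ) * q - p * h' := by
      rw [e4]; push_cast; ring
    rw [← e4', ← e1]
    ring
  have hpos : 0 < (g : ℝ) ^ 2 * h := by positivity
  have hQ0 : 0 < Q := by
    have : 0 ≤ C * (T.B w l' ^ 2 * T.B z l) := by positivity
    linarith
  rcases le_or_gt 0 ((g * q - p * h') * p) with h1 | h1
  · left
    have h2 : (0 : ℝ) ≤ (((g * q - p * h') * p : ℤ) : ℝ) := by exact_mod_cast h1
    have h3 : 0 ≤ (g : ℝ) ^ 2 * h * T.B (x • l + y • l') (x • l + y • l') := by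
      rw [e5]
      positivity
    exact (mul_nonneg_iff_of_pos_left hpos).1 h3
  · right
    have h2 : (((g * q - p * h') * p : ℤ) : ℝ) ≤ -1 := by
      have : (g * q - p * h') * p ≤ -1 := by omega
      exact_mod_cast this
    have h3 : (g : ℝ) ^ 2 * h * T.B (x • l + y • l') (x • l + y • l') ≤ -(2 * Q) := by
      rw [e5]
      nlinarith
    by_contra hcon
    push Not at hcon
    have h4 := mul_le_mul_of_nonneg_left hcon hpos.le
    rw [hg, hh] at hQ
    nlinarith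

/-- **An isotropic class far from `l` in the orbit of `l₀`.** -/
theorem exists_far (hT : T.Facts) (hn : 5 ≤ n) {mon : Set (V n ≃ₗ[ℝ] V n)}
    (hmon : FiniteIndex T mon) {l l₀ : V n} (hl : IsInt l) (h0 : l ≠ 0)
    (hq : T.B l l = 0) (hl₀ : IsInt l₀) (h0' : l₀ ≠ 0) (hq' : T.B l₀ l₀ = 0)
    (hne : ∀ c : ℝ, l₀ ≠ c • l) (C : ℝ) :
    ∃ φ ∈ mon, IsInt (φ l₀) ∧ T.B (φ l₀) (φ l₀) = 0 ∧ 0 < T.B l (φ l₀) ∧
      ∀ d, IsInt d → d ∈ Submodule.span ℝ {l, φ l₀} → 0 ≤ T.B d d ∨ T.B d d < -C := by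
  obtain ⟨k, hk0, hk⟩ := hmon
  obtain ⟨w, m, a, hw, hm, ha, hwl, hwm, hwa, hmm, hma, hwl₀, hlm, haa⟩ :=
    exists_aux hT hn hl h0 hq hl₀ h0' hq' hne
  obtain ⟨z, hz, hzl⟩ := exists_z hT h0
  -- the growth of the product
  set c2 : ℝ := -(1 / 2 * T.B a a * T.B m l₀ * T.B l m) with hc2
  have hc2pos : 0 < c2 := by
    have := mul_pos (neg_pos.2 haa) hlm
    rw [hc2]
    linarith
  set c1 : ℝ := T.B m l₀ * T.B l a - T.B a l₀ * T.B l m with hc1
  set K : ℝ := |C| * (T.B w l₀ ^ 2 * T.B z l) with hK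
  have hK0 : 0 ≤ K := by positivity
  obtain ⟨j, hj⟩ := exists_nat_ge ((|c1| + |T.B l l₀| + K + 1) / c2)
  have hj' : |c1| + |T.B l l₀| + K + 1 ≤ c2 * j := by
    rw [div_le_iff₀ hc2pos] at hj
    linarith
  have hj1 : 1 ≤ j + 1 := by omega
  set t : ℝ := 2 * k * (j + 1 : ℕ) with ht
  have hkr : (1 : ℝ) ≤ k := by exact_mod_cast hk0
  have htj : ((j + 1 : ℕ) : ℝ) ≤ t := by
    rw [ht]
    have : (0 : ℝ) ≤ ((j + 1 : ℕ) : ℝ) := Nat.cast_nonneg _
    nlinarith
  have ht1 : 1 ≤ t := by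
    refine le_trans ?_ htj
    exact_mod_cast hj1
  have haj : IsInt (((j + 1 : ℕ) : ℝ) • a) := by
    have := ha.zsmul (j + 1 : ℕ)
    exact_mod_cast this
  have hmaj : T.B m (((j + 1 : ℕ) : ℝ) • a) = 0 := by rw [map_smul, hma, smul_zero]
  obtain ⟨φ, hφ, hφx, hφint⟩ := tv_mem hT hk hm haj hmm hmaj
  have hb : ∀ x, φ x = tv T.B m (t • a) x := by
    intro x
    rw [hφx, smul_smul]
  have hmta : T.B m (t • a) = 0 := by rw [map_smul, hma, smul_zero]
  have hφl₀ : φ l₀ = l₀ - (t * T.B a l₀) • m + (t * T.B m l₀) • a -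
      (1 / 2 * (t ^ 2 * T.B a a) * T.B m l₀) • m := by
    rw [hb, tv_apply]
    simp only [map_smul, LinearMap.smul_apply, smul_eq_mul, smul_smul]
    ring_nf
  have hlφ : T.B l (φ l₀) = T.B l l₀ + t * c1 + t ^ 2 * c2 := by
    rw [hφl₀, hc1, hc2]
    simp only [map_sub, map_add, map_smul, smul_eq_mul]
    ring
  have hwφ : T.B w (φ l₀) = T.B w l₀ := by
    rw [hφl₀]
    simp only [map_sub, map_add, map_smul, smul_eq_mul, hwm, hwa]
    ring
  have hiso : T.B (φ l₀) (φ l₀) = 0 := by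
    rw [hb, tv_isometry hT hmm hmta, hq']
  have hbig : K + 1 ≤ T.B l (φ l₀) := by
    rw [hlφ]
    have h1 := neg_abs_le c1
    have h2 := neg_abs_le (T.B l l₀)
    have h3 : t * (c2 * j) ≤ t * (c2 * t) := by
      apply mul_le_mul_of_nonneg_left _ (by linarith)
      apply mul_le_mul_of_nonneg_left _ hc2pos.le
      refine le_trans ?_ htj
      push_cast
      linarith
    have h4 : t * (|c1| + |T.B l l₀| + K + 1) ≤ t * (c2 * j) :=
      mul_le_mul_of_nonneg_left hj' (by linarith)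
    have h5 : t * -|c1| ≤ t * c1 := mul_le_mul_of_nonneg_left h1 (by linarith)
    have h6 : |T.B l l₀| + K + 1 ≤ t * (|T.B l l₀| + K + 1) := by
      have : 0 ≤ |T.B l l₀| + K + 1 := by positivity
      nlinarith
    have h7 : t ^ 2 * c2 = t * (c2 * t) := by ring
    have h8 : t * (|c1| + |T.B l l₀| + K + 1) = t * |c1| + t * (|T.B l l₀| + K + 1) := by ring
    have h9 : t * -|c1| = -(t * |c1|) := by ring
    rw [h7]
    linarith
  refine ⟨φ, hφ, hφint _ hl₀, hiso, by linarith, fun d hd hdl => ?_⟩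
  have hC0 : 0 ≤ |C| := abs_nonneg C
  rcases plane_bound hT hq hiso hl (hφint _ hl₀) hw hz hwl (by rw [hwφ]; exact hwl₀) hzl hC0 (by
    rw [hwφ, ← hK]
    linarith) hd hdl with h | h
  · exact Or.inl h
  · right
    have := le_abs_self C
    linarith

/-- Moving a class away from a line. -/
theorem exists_move (hT : T.Facts) (hn : 5 ≤ n) {mon : Set (V n ≃ₗ[ℝ] V n)}
    (hmon : FiniteIndex T mon) {l l₀ : V n} (hl : IsInt l) (h0 : l ≠ 0)
    (hq : T.B l l = 0) (hl₀ : IsInt l₀) (h0' : l₀ ≠ 0) (hq' : T.B l₀ l₀ = 0) :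
    ∃ ψ ∈ mon, IsInt (ψ l₀) ∧ ψ l₀ ≠ 0 ∧ T.B (ψ l₀) (ψ l₀) = 0 ∧ ∀ c : ℝ, ψ l₀ ≠ c • l := by
  obtain ⟨k, hk0, hk⟩ := hmon
  by_cases hne : ∀ c : ℝ, l₀ ≠ c • l
  · have h1 := hk 1 (fun x y => rfl) (fun x => Iff.rfl)
    rw [one_pow] at h1
    exact ⟨1, h1, hl₀, h0', hq', hne⟩
  push Not at hne
  obtain ⟨c, hc⟩ := hne
  have hc0 : c ≠ 0 := by
    rintro rfl
    rw [zero_smul] at hc
    exact h0' hc
  obtain ⟨z, hz, hzl⟩ := exists_z hT h0
  set m : V n := (2 * T.B z l) • z - T.B z z • l with hm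
  have hmint : IsInt m := isInt_smul_sub hz hl (by
    obtain ⟨k, hk⟩ := hT.integral z l hz hl
    exact ⟨2 * k, by rw [hk]; push_cast; ring⟩) (hT.integral z z hz hz)
  have hmm : T.B m m = 0 := by
    rw [hm]
    simp only [map_sub, LinearMap.sub_apply, map_smul, LinearMap.smul_apply, smul_eq_mul, hq,
      hT.symm l z]
    ring
  have hml : T.B m l = 2 * T.B z l ^ 2 := by
    rw [hm]
    simp only [map_sub, LinearMap.sub_apply, map_smul, LinearMap.smul_apply, smul_eq_mul, hq]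
    ring
  have hml0 : 0 < T.B m l := by
    rw [hml]
    positivity
  obtain ⟨F, hF⟩ := ratProj_line hT hmint hl (show T.B l m ≠ 0 by
    rw [hT.symm]; exact hml0.ne')
  obtain ⟨e, he, hee⟩ := neg_line hT hn m
  obtain ⟨a, ha, haN, haa⟩ := approx hF (orth_span_singleton.2 he) (c := -1) (by linarith)
  have hma : T.B m a = 0 := orth_span_singleton.1 haN
  obtain ⟨φ, hφ, hφx, hφint⟩ := tv_mem hT hk hmint ha hmm hma
  have hmb : T.B m ((2 * k : ℝ) • a) = 0 := by rw [map_smul, hma, smul_zero]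
  have hiso : ∀ x y, T.B (φ x) (φ y) = T.B x y := by
    intro x y
    rw [hφx, hφx]
    exact tv_isometry hT hmm hmb x y
  refine ⟨φ, hφ, hφint _ hl₀, fun h => ?_, by rw [hiso, hq'], fun c' hc' => ?_⟩
  · exact h0' (by simpa using h)
  · have h1 : T.B m (φ l₀) = T.B m l₀ := by
      have h2 : φ m = m := by
        rw [hφx, tv_apply, hmm, hT.symm _ m, hmb]
        simp
      have h3 := hiso m l₀
      rwa [h2] at h3
    have h2 : c' = c := by
      rw [hc', hc, map_smul, map_smul, smul_eq_mul, smul_eq_mul] at h1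
      exact mul_right_cancel₀ hml0.ne' h1
    have h3 : tv T.B m ((2 * k : ℝ) • a) l₀ = l₀ := by
      rw [← hφx, hc', h2, ← hc]
    have hkr : (0 : ℝ) < k := by exact_mod_cast hk0
    have h4 : T.B ((2 * k : ℝ) • a) ((2 * k : ℝ) • a) < 0 := by
      simp only [map_smul, LinearMap.smul_apply, smul_eq_mul]
      have h5 : T.B a a < 0 := by linarith
      have h6 : 0 < (2 * k : ℝ) * (2 * k) := by positivity
      nlinarith
    have h5 := tv_fix hmb h4 h3
    rw [hc, map_smul, smul_eq_mul] at h5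
    exact mul_ne_zero hc0 hml0.ne' h5

end Pool.Agent.H93.TR
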