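import Pool.Agent.H93.TR.Orb

/-!
# Two parabolic automorphisms: definitions
-/

set_option autoImplicit false

universe u

namespace Pool.Agent.H93.TR

open Pool.Agent.Q50.HK Pool.Agent.Q50.HK.Moduli Filter Topology

/-- A component of the moduli space of marked hyperkähler manifolds (see `Moduli`, `Bundles`), with:
`Aut M` the automorphisms of `M`, and `act` the action `g^*` on `H²(M, ℝ)`. -/
structure Autos (n : ℕ) extends Bundles.{u} n where
  /-- the automorphisms -/
  Aut : Mk → Type u
  /-- the action on the cohomology -/
  act : ∀ M, Aut M → (V n ≃ₗ[ℝ] V n)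

variable {n : ℕ}

/-- Known facts, besides those of `Bundles.Facts`. `group`, `finite_index`: the monodromy group is a
group, and has finite index in the group of the isometries of the lattice (Verbitsky): there is a common
`k ≥ 1` such that it contains the `k`-th powers of all isometries. `torelli` (Verbitsky, Markman):
a monodromy operator which fixes the symplectic form and maps some Kähler class to a Kähler class comes
from an automorphism. `pullback`: the pull-back of a semiample line bundle under an automorphism is
semiample. -/
structure Autos.Facts (T : Autos.{u} n) : Prop where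
  bundles : T.toBundles.Facts
  group : ∃ H : Subgroup (V n ≃ₗ[ℝ] V n), ∀ φ, φ ∈ H ↔ φ ∈ T.mon
  mbm_mon : ∀ φ ∈ T.mon, ∀ d ∈ T.mbm, φ d ∈ T.mbm
  finite_index : FiniteIndex T.toModuli T.mon
  torelli : ∀ M, ∀ φ ∈ T.mon, (∀ p ∈ T.period M, φ p = p) →
    (∃ x ∈ T.kahler M, φ x ∈ T.kahler M) → ∃ g, T.act M g = φ
  pullback : ∀ M g x, T.semiample M x → T.semiample M (T.act M g x)

/-- The automorphism `g` of `M` is parabolic with limit class `l`, where `l` is the class of a nontrivial
nef line bundle with `q(l) = 0`: `g^* l = l`, and for all classes `x ∈ H²(M, ℝ)` with `q(x, l) > 0` the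
classes `(g^*)^m x / m²` converge to a positive multiple of `l`. -/
structure Autos.ParabolicAt (T : Autos.{u} n) (M : T.Mk) (g : T.Aut M) (l : V n) : Prop where
  nef : T.NefIsotropic M l
  fixed : T.act M g l = l
  limit : ∀ x, 0 < T.B x l → ∃ c : ℝ, 0 < c ∧
    Tendsto (fun m : ℕ => ((m : ℝ) ^ 2)⁻¹ • ((T.act M g) ^ m) x) atTop (𝓝 (c • l))

/-- `M` is projective with Picard number three, and has two parabolic automorphisms `g`, `g'` with
different limit classes `l`, `l'`. -/
structure Autos.TwoParabolics (T : Autos.{u} n) (M : T.Mk) (g g' : T.Aut M) (l l' : V n) : Prop where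
  picard : T.picard M = 3
  projective : T.Projective M
  left : T.ParabolicAt M g l
  right : T.ParabolicAt M g' l'
  product : 0 < T.B l l'

/-- The classes `(g^*)^m x`, `m ≥ 0`, are semiample. -/
def Autos.SemiampleOrbit (T : Autos.{u} n) (M : T.Mk) (g : T.Aut M) (x : V n) : Prop :=
  ∀ m : ℕ, T.semiample M (((T.act M g) ^ m) x)

end Pool.Agent.H93.TR
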