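import Pool.Agent.H93.TR.Main
import Pool.Agent.H93.TR.ParDefs

/-!
# Two parabolic automorphisms: construction
-/

set_option autoImplicit false
set_option maxHeartbeats 1000000

universe u

namespace Pool.Agent.H93.TR

open Pool.Agent.Q50.HK Pool.Agent.Q50.HK.Moduli Filter Topology

variable {n : ℕ}

section
variable {T : Moduli.{u} n}

theorem nef_iter {M : T.Mk} {x y : V n} (hx : T.Nef M x) (hy : y ∈ T.kahler M) (k : ℕ) :
    (k : ℝ) • x + y ∈ T.kahler M := by
  induction k with
  | zero => simpa using hy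
  | succ k ih =>
    have := hx _ ih
    convert this using 1
    push_cast
    module

/-- Kähler classes and a nef class are on the same side of the walls. -/
theorem sign_of_nef (hT : T.Facts) {M : T.Mk} {l y : V n} (hl : T.Nef M l) (hy : y ∈ T.kahler M)
    {d : V n} (hd : d ∈ T.mbm) (hdP : T.Orth (T.period M) d) (hld : T.B l d ≠ 0) :
    0 < T.B y d * T.B l d := by
  obtain ⟨hyr, hch⟩ := hT.kahler M y hy
  have hyd : T.B y d ≠ 0 := hyr.2.2 d hd hdP
  rcases lt_or_gt_of_ne (mul_ne_zero hyd hld) with h | h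
  · exfalso
    obtain ⟨k, hk⟩ := exists_nat_ge (T.B y d ^ 2 / (-(T.B y d * T.B l d)))
    have h1 := ((hch _).1 (nef_iter hl hy k)).2.2 d hd hdP
    rw [div_le_iff₀ (by linarith)] at hk
    simp only [map_add, LinearMap.add_apply, map_smul, LinearMap.smul_apply, smul_eq_mul] at h1
    nlinarith
  · exact h

/-- A second nef class. -/
theorem nef_second (hT : T.Facts) {M : T.Mk} {l l' : V n} (hl : T.NefIsotropic M l)
    (hlP' : T.Orth (T.period M) l') (hq' : T.B l' l' = 0) (hll : 0 < T.B l l')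
    (hd : ∀ d ∈ T.mbm, T.Orth (T.period M) d → 0 < T.B l d * T.B l' d) : T.Nef M l' := by
  obtain ⟨⟨hli, hlP⟩, h0, hq, hnef⟩ := hl
  obtain ⟨hp2, hpp⟩ := hT.period M
  have hx1P : T.Orth (T.period M) (l + l') := by
    intro p hp
    rw [map_add, hlP p hp, hlP' p hp, add_zero]
  have hx1 : T.B (l + l') (l + l') = 2 * T.B l l' := by
    simp only [map_add, LinearMap.add_apply, hq, hq', hT.symm l' l]
    ring
  have hx1l : T.B (l + l') l = T.B l l' := by
    simp only [map_add, LinearMap.add_apply, hq, hT.symm l' l]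
    ring
  have hx1l' : T.B (l + l') l' = T.B l l' := by
    simp only [map_add, LinearMap.add_apply, hq']
    ring
  intro y hy
  obtain ⟨hyr, hch⟩ := hT.kahler M y hy
  have hyl : 0 < T.B y l := nef_pos hT ⟨⟨hli, hlP⟩, h0, hq, hnef⟩ hy
  have h4 := pos_of_pos' hT hp2 hpp hx1P (by rw [hx1]; linarith) hyr.1 hyr.2.1 hlP hq
    (by rw [hx1l]; exact hll) hyl
  have hyl' : 0 < T.B y l' := pos_of_pos hT hp2 hpp hx1P (by rw [hx1]; linarith) hyr.1 hyr.2.1 hlP' hq'
    (by rw [hx1l']; exact hll) h4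
  have key : ∀ d ∈ T.mbm, T.Orth (T.period M) d → 0 < T.B y d * T.B (l' + y) d := by
    intro d hdm hdP
    have h1 := hd d hdm hdP
    have h2 : T.B l d ≠ 0 := fun h => by rw [h, zero_mul] at h1; exact lt_irrefl _ h1
    have h3 := sign_of_nef hT hnef hy hdm hdP h2
    have h5 : 0 < T.B l d ^ 2 * (T.B y d * T.B l' d) := by
      have := mul_pos h3 h1
      nlinarith
    have h6 : 0 < T.B y d * T.B l' d := (mul_pos_iff_of_pos_left (by positivity)).1 h5
    rw [map_add, LinearMap.add_apply]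
    nlinarith [sq_nonneg (T.B y d)]
  refine (hch _).2 ⟨⟨?_, ?_, ?_⟩, ?_, key⟩
  · intro p hp
    rw [map_add, hlP' p hp, hyr.1 p hp, add_zero]
  · have e : T.B (l' + y) (l' + y) = T.B y y + 2 * T.B y l' := by
      simp only [map_add, LinearMap.add_apply, hq', hT.symm l' y]
      ring
    rw [e]
    linarith [hyr.2.1]
  · intro d hdm hdP h
    have := key d hdm hdP
    rw [h, mul_zero] at this
    exact lt_irrefl _ this
  · rw [map_add]
    linarith [hyr.2.1]

/-- The auxiliary class `a`. -/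
theorem exists_neg (hT : T.Facts) (hn : 5 ≤ n) {l l' : V n} (hl : IsInt l) (hl' : IsInt l')
    (hq : T.B l l = 0) (hq' : T.B l' l' = 0) (hll : 0 < T.B l l') (C : ℝ) :
    ∃ e a, IsInt e ∧ IsInt a ∧ T.B l e = 0 ∧ T.B l' e = 0 ∧ T.B l a = 0 ∧ T.B l' a = 0 ∧
      0 < T.B e e ∧ T.B e a = T.B e e ∧ T.B a a < -(|C| * T.B e e ^ 2) := by
  have hll' : 0 < T.B l' l := by rw [hT.symm]; exact hll
  obtain ⟨F, hF⟩ := ratProj_line hT hl hl' hll'.ne'
  obtain ⟨F₂, hF₂⟩ := ratProj_step hT hF hl' hl hll'.ne' (orth_span_singleton.2 hq)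
  obtain ⟨u, hu1, hu2, huu⟩ := pos_perp hT l l'
  obtain ⟨e, he, heN, hee⟩ := approx hF₂ (orth_sup (orth_span_singleton.2 hu1) hu2) (c := 1)
    (by linarith)
  rw [one_mul] at hee
  have hle : T.B l e = 0 := heN l (Submodule.mem_sup_left (Submodule.subset_span (by simp)))
  have hle' : T.B l' e = 0 := heN l' (Submodule.mem_sup_right (Submodule.subset_span (by simp)))
  have hel : T.B e l = 0 := by rw [hT.symm]; exact hle
  have hel' : T.B e l' = 0 := by rw [hT.symm]; exact hle'
  obtain ⟨x, hx1, hx2, hx3⟩ := neg_perp hT hn hee hel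
  have hxl : T.B x l = 0 := by rw [hT.symm]; exact hx2
  set x' : V n := x - (T.B l' x / T.B l' l) • l with hx'
  have hx'l : T.B l x' = 0 := by
    rw [hx', map_sub, map_smul, hx2, hq]
    simp
  have hx'l' : T.B l' x' = 0 := by
    rw [hx', map_sub, map_smul, smul_eq_mul]
    field_simp
    ring
  have hx'e : T.B e x' = 0 := by
    rw [hx', map_sub, map_smul, hx1, hel]
    simp
  have hx'x' : T.B x' x' = T.B x x := by
    rw [hx']
    simp only [map_sub, LinearMap.sub_apply, map_smul, LinearMap.smul_apply, smul_eq_mul, hx2, hxl,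
      hq]
    ring
  obtain ⟨F₃, hF₃⟩ := ratProj_step hT hF₂ he he hee.ne' heN
  obtain ⟨a, ha, haN, haa⟩ := approx hF₃ (orth_sup (orth_sup (orth_span_singleton.2 hx'l) hx'l') hx'e)
    (c := -1) (by rw [hx'x']; linarith)
  have haa' : T.B a a < 0 := by linarith
  have hla : T.B l a = 0 := haN l (Submodule.mem_sup_left (Submodule.mem_sup_left
    (Submodule.subset_span (by simp))))
  have hla' : T.B l' a = 0 := haN l' (Submodule.mem_sup_left (Submodule.mem_sup_right
    (Submodule.subset_span (by simp))))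
  have hea : T.B e a = 0 := haN e (Submodule.mem_sup_right (Submodule.subset_span (by simp)))
  obtain ⟨t, ht⟩ := exists_nat_gt ((|C| * T.B e e ^ 2 + T.B e e) / (-T.B a a))
  rw [div_lt_iff₀ (by linarith)] at ht
  have ht0 : (0 : ℝ) < t := by
    have h1 : 0 < |C| * T.B e e ^ 2 + T.B e e := by positivity
    by_contra h
    push Not at h
    nlinarith
  have ht1 : (1 : ℝ) ≤ t := by
    have : 0 < t := by exact_mod_cast ht0
    exact_mod_cast this
  refine ⟨e, e + (t : ℝ) • a, he, ?_, hle, hle', ?_, ?_, hee, ?_, ?_⟩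
  · have := he.add (ha.zsmul t)
    exact_mod_cast this
  · rw [map_add, map_smul, hle, hla]
    simp
  · rw [map_add, map_smul, hle', hla']
    simp
  · rw [map_add, map_smul, hea]
    simp
  · have e1 : T.B (e + (t : ℝ) • a) (e + (t : ℝ) • a) = T.B e e + t ^ 2 * T.B a a := by
      simp only [map_add, LinearMap.add_apply, map_smul, LinearMap.smul_apply, smul_eq_mul,
        hT.symm a e, hea]
      ring
    rw [e1]
    have h2 : (t : ℝ) * (-T.B a a) ≤ (t : ℝ) ^ 2 * (-T.B a a) := by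
      apply mul_le_mul_of_nonneg_right _ (by linarith)
      nlinarith
    nlinarith

/-- The integral classes in the span of `l`, `l'`, `a`. -/
theorem space_bound (hT : T.Facts) {l l' e a : V n} {C : ℝ} (hq : T.B l l = 0)
    (hq' : T.B l' l' = 0) (hll : 0 < T.B l l') (he : IsInt e) (hle : T.B l e = 0)
    (hle' : T.B l' e = 0) (hla : T.B l a = 0) (hla' : T.B l' a = 0) (hee : 0 < T.B e e)
    (hea : T.B e a = T.B e e) (haa : T.B a a < -(|C| * T.B e e ^ 2))
    (hd : ∀ d, IsInt d → d ∈ Submodule.span ℝ {l, l'} → 0 ≤ T.B d d ∨ T.B d d < -C)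
    {x y z : ℝ} (hxy : x * y ≤ 0) (hint : IsInt (x • l + y • l' + z • a)) :
    0 ≤ T.B (x • l + y • l' + z • a) (x • l + y • l' + z • a) ∨
      T.B (x • l + y • l' + z • a) (x • l + y • l' + z • a) < -C := by
  by_cases hz : z = 0
  · rw [hz, zero_smul, add_zero] at hint ⊢
    exact hd _ hint (Submodule.mem_span_pair.2 ⟨x, y, rfl⟩)
  right
  obtain ⟨m, hm⟩ := hT.integral e _ he hint
  have hel : T.B e l = 0 := by rw [hT.symm]; exact hle
  have hel' : T.B e l' = 0 := by rw [hT.symm]; exact hle'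
  have hal : T.B a l = 0 := by rw [hT.symm]; exact hla
  have hal' : T.B a l' = 0 := by rw [hT.symm]; exact hla'
  have h1 : z * T.B e e = m := by
    rw [← hm, map_add, map_add, map_smul, map_smul, map_smul, hel, hel', hea]
    simp
  have hm0 : m ≠ 0 := by
    rintro rfl
    rw [Int.cast_zero] at h1
    rcases mul_eq_zero.1 h1 with h | h
    · exact hz h
    · exact hee.ne' h
  have hm1 : (1 : ℝ) ≤ (m : ℝ) ^ 2 := by
    have : 1 ≤ m ^ 2 := by
      have := sq_nonneg m
      have h3 : m ^ 2 ≠ 0 := pow_ne_zero 2 hm0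
      omega
    exact_mod_cast this
  have h2 : 1 ≤ z ^ 2 * T.B e e ^ 2 := by
    rw [← mul_pow, h1]
    exact hm1
  have e1 : T.B (x • l + y • l' + z • a) (x • l + y • l' + z • a) =
      2 * (x * y) * T.B l l' + z ^ 2 * T.B a a := by
    simp only [map_add, LinearMap.add_apply, map_smul, LinearMap.smul_apply, smul_eq_mul, hq, hq',
      hla, hla', hal, hal', hT.symm l' l]
    ring
  rw [e1]
  have h3 : 2 * (x * y) * T.B l l' ≤ 0 := by nlinarith
  have h4 : z ^ 2 * T.B a a < z ^ 2 * -(|C| * T.B e e ^ 2) := by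
    apply mul_lt_mul_of_pos_left haa
    positivity
  have h5 : |C| * 1 ≤ |C| * (z ^ 2 * T.B e e ^ 2) := mul_le_mul_of_nonneg_left h2 (abs_nonneg _)
  have h6 := le_abs_self C
  nlinarith

end

section
variable {T : Autos.{u} n}

/-- Parabolic automorphisms. -/
theorem parabolic_aut (hT : T.Facts) {M : T.Mk} {l : V n} (hl : T.NefIsotropic M l) {a : V n}
    (ha : IsInt a) (haP : T.Orth (T.period M) a) (hla : T.B l a = 0) (haa : T.B a a < 0)
    (hwall : ∀ d ∈ T.mbm, T.Orth (T.period M) d → T.B l d ≠ 0) :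
    ∃ g : T.Aut M, ∃ b, T.B l b = 0 ∧ T.B b b < 0 ∧ ∀ x, T.act M g x = tv T.B l b x := by
  have hF : T.toModuli.Facts := hT.bundles.toFacts
  obtain ⟨H, hH⟩ := hT.group
  obtain ⟨⟨hli, hlP⟩, h0, hq, hnef⟩ := hl
  obtain ⟨k, hk, hmon⟩ := hT.finite_index
  have hl2a : T.B l ((2 : ℝ) • a) = 0 := by rw [map_smul, hla, smul_zero]
  set φ := tvE hF l ((2 : ℝ) • a) hq hl2a with hφ
  have hφint : ∀ x, IsInt x → IsInt (φ x) := fun x hx => tv_int hF hli ha hx
  have hφint' : ∀ x, IsInt x ↔ IsInt (φ x) := by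
    intro x
    refine ⟨hφint x, fun h => ?_⟩
    have h2 : IsInt (tv T.B l ((2 : ℝ) • (-a)) (φ x)) := tv_int hF hli ha.neg h
    rw [hφ, tvE_apply, tv_comp hF hq (by rw [smul_neg, map_neg, hl2a, neg_zero]) hl2a] at h2
    rw [smul_neg, neg_add_cancel, tv_zero] at h2
    exact h2
  have hmem := hmon φ (fun x y => tv_isometry hF hq hl2a x y) hφint'
  set b : V n := (k : ℝ) • (2 : ℝ) • a with hb
  have hψ : ∀ x, (φ ^ k) x = tv T.B l b x := fun x => tvE_pow hF l _ hq hl2a k x
  have hlb : T.B l b = 0 := by rw [hb, map_smul, hl2a, smul_zero]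
  have hbb : T.B b b < 0 := by
    have e : T.B b b = (2 * k) ^ 2 * T.B a a := by
      rw [hb]
      simp only [map_smul, LinearMap.smul_apply, smul_eq_mul]
      ring
    rw [e]
    have : (0 : ℝ) < k := by exact_mod_cast hk
    exact mul_neg_of_pos_of_neg (by positivity) haa
  have hPb : T.Orth (T.period M) b := by
    intro p hp
    rw [hb, map_smul, map_smul, haP p hp, smul_zero, smul_zero]
  have hfixP : ∀ p ∈ T.period M, (φ ^ k) p = p := by
    intro p hp
    rw [hψ, tv_apply, hF.symm b p, hPb p hp, hF.symm l p, hlP p hp]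
    simp
  have hfixl : (φ ^ k) l = l := by
    rw [hψ, tv_apply, hF.symm b l, hlb, hq]
    simp
  have hiso : ∀ x y, T.B ((φ ^ k) x) ((φ ^ k) y) = T.B x y := by
    intro x y
    rw [hψ, hψ]
    exact tv_isometry hF hq hlb x y
  have hinv : ∀ x, (φ ^ k) (((φ ^ k)⁻¹) x) = x := by
    intro x
    rw [← LinearEquiv.mul_apply, mul_inv_cancel]
    rfl
  have hadj : ∀ x d, T.B ((φ ^ k) x) d = T.B x (((φ ^ k)⁻¹) d) := by
    intro x d
    have := hiso x (((φ ^ k)⁻¹) d)
    rwa [hinv] at this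
  obtain ⟨x, hx⟩ := hF.nonempty M
  obtain ⟨hxr, hch⟩ := hF.kahler M x hx
  have hdinv : ∀ d ∈ T.mbm, T.Orth (T.period M) d →
      ((φ ^ k)⁻¹) d ∈ T.mbm ∧ T.Orth (T.period M) (((φ ^ k)⁻¹) d) := by
    intro d hd hdP
    refine ⟨hT.mbm_mon _ ((hH _).1 (H.inv_mem ((hH _).2 hmem))) d hd, fun p hp => ?_⟩
    rw [← hadj, hfixP p hp]
    exact hdP p hp
  have hld : ∀ d, T.B l (((φ ^ k)⁻¹) d) = T.B l d := by
    intro d
    rw [← hadj, hfixl]
  have hP2 := hF.period M
  have hxl := nef_pos hF ⟨⟨hli, hlP⟩, h0, hq, hnef⟩ hx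
  have hxP' : T.Orth (T.period M) ((φ ^ k) x) := by
    intro p hp
    have := hiso p x
    rw [hfixP p hp] at this
    rw [this]
    exact hxr.1 p hp
  have hxl' : 0 < T.B ((φ ^ k) x) l := by
    have := hiso x l
    rw [hfixl] at this
    rw [this]
    exact hxl
  have hkah : (φ ^ k) x ∈ T.kahler M := by
    refine (hch _).2 ⟨⟨hxP', ?_, ?_⟩, ?_, ?_⟩
    · rw [hiso]
      exact hxr.2.1
    · intro d hd hdP
      rw [hadj]
      exact hxr.2.2 _ (hdinv d hd hdP).1 (hdinv d hd hdP).2
    · exact pos_of_pos' hF hP2.1 hP2.2 hxr.1 hxr.2.1 hxP' (by rw [hiso]; exact hxr.2.1) hlP hq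
        hxl hxl'
    · intro d hd hdP
      have h1 := sign_of_nef hF hnef hx hd hdP (hwall d hd hdP)
      have h2 := sign_of_nef hF hnef hx (hdinv d hd hdP).1 (hdinv d hd hdP).2 (by
        rw [hld]
        exact hwall d hd hdP)
      rw [hld, ← hadj] at h2
      have h3 : 0 < T.B l d ^ 2 * (T.B x d * T.B ((φ ^ k) x) d) := by
        have := mul_pos h1 h2
        nlinarith
      have h4 : 0 < T.B l d ^ 2 := by
        have := hwall d hd hdP
        positivity
      exact (mul_pos_iff_of_pos_left h4).1 h3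
  obtain ⟨g, hg⟩ := hT.torelli M (φ ^ k) hmem hfixP ⟨x, hx, hkah⟩
  refine ⟨g, b, hlb, hbb, fun y => ?_⟩
  rw [hg, hψ]

/-- The limits. -/
theorem parabolicAt_of (hT : T.Facts) {M : T.Mk} {l : V n} (hl : T.NefIsotropic M l)
    {g : T.Aut M} {b : V n} (hlb : T.B l b = 0) (hbb : T.B b b < 0)
    (hg : ∀ x, T.act M g x = tv T.B l b x) : T.ParabolicAt M g l := by
  have hF : T.toModuli.Facts := hT.bundles.toFacts
  have hq := hl.2.2.1
  refine ⟨hl, ?_, fun x hx => ⟨-(1 / 2 * T.B b b * T.B l x), ?_, ?_⟩⟩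
  · rw [hg, tv_apply, hF.symm b l, hlb, hq]
    simp
  · have hlx : 0 < T.B l x := by rw [hF.symm]; exact hx
    have := mul_pos (neg_pos.2 hbb) hlx
    linarith
  · have e : T.act M g = tvE hF l b hq hlb := LinearEquiv.ext fun x => hg x
    have h1 : ∀ m : ℕ, ((T.act M g) ^ m) x = x - ((m : ℝ) * T.B b x) • l + ((m : ℝ) * T.B l x) • b -
        ((m : ℝ) ^ 2 * (1 / 2 * T.B b b * T.B l x)) • l := by
      intro m
      rw [e, tvE_pow, tv_apply]
      simp only [map_smul, LinearMap.smul_apply, smul_eq_mul, smul_smul]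
      congr 2
      · rw [mul_comm]
      · ring
    have h2 : Tendsto (fun m : ℕ => ((m : ℝ)⁻¹ * (m : ℝ)⁻¹) • x - ((m : ℝ)⁻¹ * T.B b x) • l +
        ((m : ℝ)⁻¹ * T.B l x) • b - (1 / 2 * T.B b b * T.B l x) • l) atTop
        (𝓝 (((0 : ℝ) * 0) • x - ((0 : ℝ) * T.B b x) • l + ((0 : ℝ) * T.B l x) • b -
          (1 / 2 * T.B b b * T.B l x) • l)) := by
      have h3 : Tendsto (fun m : ℕ => (m : ℝ)⁻¹) atTop (𝓝 0) := tendsto_inv_atTop_nhds_zero_nat
      exact ((((h3.mul h3).smul_const x).sub ((h3.mul_const _).smul_const l)).add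
        ((h3.mul_const _).smul_const b)).sub_const _
    have h4 : ((0 : ℝ) * 0) • x - ((0 : ℝ) * T.B b x) • l + ((0 : ℝ) * T.B l x) • b -
          (1 / 2 * T.B b b * T.B l x) • l = (-(1 / 2 * T.B b b * T.B l x)) • l := by
      module
    rw [h4] at h2
    refine h2.congr' ?_
    filter_upwards [eventually_gt_atTop 0] with m hm
    have hm' : (m : ℝ) ≠ 0 := by
      have : (0 : ℝ) < m := by exact_mod_cast hm
      exact this.ne'
    rw [h1, smul_sub, smul_add, smul_sub, smul_smul, smul_smul, smul_smul]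
    congr 2
    · congr 2
      · field_simp
      · field_simp
    · field_simp
    · field_simp

/-- **Existence.** -/
theorem exists_two_parabolics (hT : T.Facts) (hn : 5 ≤ n) {C : ℝ} (hC : ∀ d ∈ T.mbm, -C ≤ T.B d d)
    {l l' : V n} (hl : IsInt l) (hl' : IsInt l') (hq : T.B l l = 0) (hq' : T.B l' l' = 0)
    (hll : 0 < T.B l l') (hd : ∀ d, IsInt d → d ∈ Submodule.span ℝ {l, l'} →
      0 ≤ T.B d d ∨ T.B d d < -C) : ∃ M g g', T.TwoParabolics M g g' l l' := by
  have hF : T.toModuli.Facts := hT.bundles.toFacts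
  have h0 : l ≠ 0 := by
    rintro rfl
    simp at hll
  have h0' : l' ≠ 0 := by
    rintro rfl
    simp at hll
  have hll' : 0 < T.B l' l := by rw [hF.symm]; exact hll
  obtain ⟨e, a, he, ha, hle, hle', hla, hla', hee, hea, haa⟩ := exists_neg hF hn hl hl' hq hq' hll C
  have haa0 : T.B a a < 0 := by
    have : 0 ≤ |C| * T.B e e ^ 2 := by positivity
    linarith
  set N₂ : Submodule ℝ (V n) := Submodule.span ℝ {l} ⊔ Submodule.span ℝ {l'} with hN₂
  set N : Submodule ℝ (V n) := N₂ ⊔ Submodule.span ℝ {a} with hN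
  have hlN : l ∈ N := Submodule.mem_sup_left (Submodule.mem_sup_left (Submodule.subset_span (by simp)))
  have hlN' : l' ∈ N :=
    Submodule.mem_sup_left (Submodule.mem_sup_right (Submodule.subset_span (by simp)))
  have haN : a ∈ N := Submodule.mem_sup_right (Submodule.subset_span (by simp))
  have hmem : ∀ d ∈ N, ∃ x y z : ℝ, d = x • l + y • l' + z • a := by
    intro d hd
    obtain ⟨p, hp, r, hr, rfl⟩ := Submodule.mem_sup.1 hd
    obtain ⟨p1, hp1, p2, hp2, rfl⟩ := Submodule.mem_sup.1 hp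
    obtain ⟨x, rfl⟩ := Submodule.mem_span_singleton.1 hp1
    obtain ⟨y, rfl⟩ := Submodule.mem_span_singleton.1 hp2
    obtain ⟨z, rfl⟩ := Submodule.mem_span_singleton.1 hr
    exact ⟨x, y, z, rfl⟩
  have hplane : T.toModuli.Plane N := by
    have h1 := plane_hyp hF (plane_line hF l) (z := l') (Submodule.subset_span (by simp))
      (orth_span_singleton.2 hq) hll'.ne'
    exact plane_neg hF h1 (orth_sup (orth_span_singleton.2 hla) hla') haa0
  obtain ⟨u, v, hu, hv, g1, g2⟩ := hplane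
  obtain ⟨M, hM1, hM2, hnef, -, -⟩ := exists_marking hF hl h0 hq hlN hu hv g1 g2
  have hlP := hM2 l hlN
  have hlP' := hM2 l' hlN'
  have haP := hM2 a haN
  have hleft : T.NefIsotropic M l := ⟨⟨hl, hlP⟩, h0, hq, hnef⟩
  have hwall : ∀ d ∈ T.mbm, T.Orth (T.period M) d → 0 < T.B l d * T.B l' d := by
    intro d hdm hdP
    obtain ⟨hdi, hdd⟩ := hF.mbm d hdm
    obtain ⟨x, y, z, rfl⟩ := hmem d ((hM1 d hdi).1 hdP)
    have e1 : T.B l (x • l + y • l' + z • a) = y * T.B l l' := by
      simp only [map_add, map_smul, smul_eq_mul, hq, hla]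
      ring
    have e2 : T.B l' (x • l + y • l' + z • a) = x * T.B l l' := by
      simp only [map_add, map_smul, smul_eq_mul, hq', hla', hF.symm l' l]
      ring
    rw [e1, e2]
    rcases le_or_gt (x * y) 0 with h | h
    · exfalso
      rcases space_bound hF hq hq' hll he hle hle' hla hla' hee hea haa hd h hdi with h1 | h1
      · linarith
      · have := hC _ hdm
        linarith
    · have : 0 < x * y * T.B l l' ^ 2 := by positivity
      nlinarith
  have hnef' : T.Nef M l' := nef_second hF hleft hlP' hq' hll hwall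
  have hright : T.NefIsotropic M l' := ⟨⟨hl', hlP'⟩, h0', hq', hnef'⟩
  obtain ⟨g, b, hb1, hb2, hg⟩ := parabolic_aut hT hleft ha haP hla haa0 (by
    intro d hdm hdP h
    have := hwall d hdm hdP
    rw [h, zero_mul] at this
    exact lt_irrefl _ this)
  obtain ⟨g', b', hb1', hb2', hg'⟩ := parabolic_aut hT hright ha haP hla' haa0 (by
    intro d hdm hdP h
    have := hwall d hdm hdP
    rw [h, mul_zero] at this
    exact lt_irrefl _ this)
  have hx1 : T.B (l + l') (l + l') = 2 * T.B l l' := by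
    simp only [map_add, LinearMap.add_apply, hq, hq', hF.symm l' l]
    ring
  have hx1P : T.Orth (T.period M) (l + l') := by
    intro p hp
    rw [map_add, hlP p hp, hlP' p hp, add_zero]
  have hspan : Submodule.span ℝ {x : V n | T.NS M x} = N := by
    apply le_antisymm
    · rw [Submodule.span_le]
      intro x hx
      exact (hM1 x hx.1).1 hx.2
    · rw [hN, hN₂]
      refine sup_le (sup_le ?_ ?_) ?_
      · rw [Submodule.span_le, Set.singleton_subset_iff]
        exact Submodule.subset_span ⟨hl, hlP⟩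
      · rw [Submodule.span_le, Set.singleton_subset_iff]
        exact Submodule.subset_span ⟨hl', hlP'⟩
      · rw [Submodule.span_le, Set.singleton_subset_iff]
        exact Submodule.subset_span ⟨ha, haP⟩
  have haN₂ : a ∉ N₂ := by
    intro h
    obtain ⟨p1, hp1, p2, hp2, hs⟩ := Submodule.mem_sup.1 h
    obtain ⟨x, rfl⟩ := Submodule.mem_span_singleton.1 hp1
    obtain ⟨y, rfl⟩ := Submodule.mem_span_singleton.1 hp2
    have h1 : T.B l (x • l + y • l') = 0 := by rw [hs]; exact hla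
    have h2 : T.B l' (x • l + y • l') = 0 := by rw [hs]; exact hla'
    simp only [map_add, map_smul, smul_eq_mul, hq, hq', mul_zero, zero_add, add_zero] at h1 h2
    have hy : y = 0 := (mul_eq_zero.1 h1).resolve_right hll.ne'
    have hx : x = 0 := (mul_eq_zero.1 h2).resolve_right hll'.ne'
    rw [hx, hy, zero_smul, zero_smul, add_zero] at hs
    rw [← hs] at haa0
    simp at haa0
  refine ⟨M, g, g', ⟨?_, ⟨l + l', ⟨hl.add hl', hx1P⟩, by rw [hx1]; linarith⟩,
    parabolicAt_of hT hleft hb1 hb2 hg, parabolicAt_of hT hright hb1' hb2' hg', hll⟩⟩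
  rw [Moduli.picard, hspan, hN, finrank_sup haN₂, hN₂, finrank_sup (not_mem_of_product hq hll),
    finrank_span_singleton h0]

end

end Pool.Agent.H93.TR
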