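import Pool.Agent.H93.TR.ParAux

/-!
# Two parabolic automorphisms: the criterion
-/

set_option autoImplicit false

universe u

namespace Pool.Agent.H93.TR

open Pool.Agent.Q50.HK Pool.Agent.Q50.HK.Moduli

variable {n : ℕ} {T : Autos.{u} n}

theorem semiampleOrbit_of (hT : T.Facts) {M : T.Mk} {g : T.Aut M} {x : V n}
    (h : T.semiample M x) : T.SemiampleOrbit M g x := by
  intro m
  induction m with
  | zero => simpa using h
  | succ m ih =>
    rw [pow_succ', LinearEquiv.mul_apply]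
    exact hT.pullback M g _ ih

/-- **The list.** -/
theorem finite_list_par (hn : 5 ≤ n) (hT : T.Facts) {M₀ : T.Mk} {l₀ : V n}
    (h0 : T.NefIsotropic M₀ l₀) (hs : T.semiample M₀ l₀) :
    ∃ (m : ℕ) (M : Fin m → T.Mk) (g g' : ∀ i, T.Aut (M i)) (l l' : Fin m → V n),
      (∀ i, T.TwoParabolics (M i) (g i) (g' i) (l i) (l' i) ∧
        T.SemiampleOrbit (M i) (g i) (l' i)) ∧
      ((∀ M l, T.NefIsotropic M l → T.semiample M l) ↔ ∀ i, T.semiample (M i) (l i)) := by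
  have hF : T.toModuli.Facts := hT.bundles.toFacts
  obtain ⟨C, hC⟩ := hF.bounded
  obtain ⟨S, hS, horb⟩ := hT.bundles.orbits
  have hex : ∀ s : S, ∃ M g g' l', T.TwoParabolics M g g' s l' ∧ T.SemiampleOrbit M g l' := by
    intro s
    obtain ⟨hsi, hs0, hsq⟩ := hS s s.2
    obtain ⟨ψ, hψ, h1, h2, h3, h4⟩ :=
      exists_move hF hn hT.finite_index hsi hs0 hsq h0.1.1 h0.2.1 h0.2.2.1
    obtain ⟨φ, hφ, h5, h6, h7, h8⟩ := exists_far hF hn hT.finite_index hsi hs0 hsq h1 h2 h3 h4 C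
    obtain ⟨M, g, g', hM⟩ := exists_two_parabolics hT hn hC hsi h5 hsq h6 h7 h8
    obtain ⟨M₁, hM₁, hn₁⟩ := hT.bundles.relabel ψ hψ M₀
    obtain ⟨M₂, hM₂, hn₂⟩ := hT.bundles.relabel φ hφ M₁
    have h9 := hn₂ _ (hn₁ _ h0)
    have h10 : T.semiample M₂ (φ (ψ l₀)) := by
      rw [hM₂, hM₁]
      exact hs
    exact ⟨M, g, g', φ (ψ l₀), hM,
      semiampleOrbit_of hT (hT.bundles.matsushita _ _ _ h9 hM.right.nef h10)⟩
  choose M g g' l' hM using hex
  let e : Fin (Fintype.card S) ≃ S := (Fintype.equivFin S).symm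
  refine ⟨Fintype.card S, fun i => M (e i), fun i => g (e i), fun i => g' (e i),
    fun i => (e i : V n), fun i => l' (e i), fun i => hM (e i), ?_⟩
  constructor
  · intro h i
    exact h _ _ (hM (e i)).1.left.nef
  · intro h M' l hl
    obtain ⟨s, hs, φ, hφ, k, hk, hφl⟩ := horb l hl.1.1 hl.2.1 hl.2.2.1
    obtain ⟨M'', hM'', hnef⟩ := hT.bundles.relabel φ hφ M'
    have h2 := hnef l hl
    rw [hφl] at h2
    have h3 := nef_of_smul hF (hS s hs).1 hk h2
    have h4 : T.semiample (M ⟨s, hs⟩) s := by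
      have := h (e.symm ⟨s, hs⟩)
      simpa using this
    have h5 := hT.bundles.matsushita _ M'' s (hM ⟨s, hs⟩).1.left.nef h3 h4
    rw [← hM'', hφl, hT.bundles.power M'' s k hk]
    exact h5

/-- **The criterion.** -/
theorem criterion_par (hn : 5 ≤ n) (hT : T.Facts)
    (hiso : ∃ l, IsInt l ∧ l ≠ 0 ∧ T.B l l = 0) :
    (∀ M l, T.NefIsotropic M l → T.semiample M l) ↔
      (∃ M l, T.NefIsotropic M l ∧ T.semiample M l) ∧
      ∀ M g g' l l', T.TwoParabolics M g g' l l' → T.SemiampleOrbit M g l' → T.semiample M l := by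
  constructor
  · intro h
    obtain ⟨l, hl, h0, hq⟩ := hiso
    obtain ⟨M, -, -, hM⟩ := exists_picard hT.bundles.toFacts hl h0 hq (r := 1) le_rfl (by omega)
    exact ⟨⟨M, l, hM, h M l hM⟩, fun M g g' l l' hM _ => h M l hM.left.nef⟩
  · rintro ⟨⟨M₀, l₀, h0, hs⟩, h⟩
    obtain ⟨m, M, g, g', l, l', hM, hiff⟩ := finite_list_par hn hT h0 hs
    exact hiff.2 fun i => h _ _ _ _ _ (hM i).1 (hM i).2

/-- All nef line bundles with `q = 0` on the projective members are semiample. -/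
theorem semiampleOn_iff_par (hn : 5 ≤ n) (hT : T.Facts)
    (hiso : ∃ l, IsInt l ∧ l ≠ 0 ∧ T.B l l = 0) :
    (∀ M l, T.Projective M → T.NefIsotropic M l → T.semiample M l) ↔
      (∃ M l, T.Projective M ∧ T.NefIsotropic M l ∧ T.semiample M l) ∧
      ∀ M g g' l l', T.TwoParabolics M g g' l l' → T.SemiampleOrbit M g l' → T.semiample M l := by
  constructor
  · intro h
    obtain ⟨l, hl, h0, hq⟩ := hiso
    obtain ⟨M, -, hproj, hM⟩ :=
      exists_picard hT.bundles.toFacts hl h0 hq (r := 2) (by norm_num) (by omega)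
    exact ⟨⟨M, l, hproj le_rfl, hM, h M l (hproj le_rfl) hM⟩,
      fun M g g' l l' hM _ => h M l hM.projective hM.left.nef⟩
  · rintro ⟨⟨M₀, l₀, -, h0, hs⟩, h⟩ M l - hl
    exact (criterion_par hn hT hiso).2 ⟨⟨M₀, l₀, h0, hs⟩, h⟩ M l hl

theorem finite_list_par_proj (hn : 5 ≤ n) (hT : T.Facts) {M₀ : T.Mk} {l₀ : V n}
    (h0 : T.NefIsotropic M₀ l₀) (hs : T.semiample M₀ l₀) :
    ∃ (m : ℕ) (M : Fin m → T.Mk) (g g' : ∀ i, T.Aut (M i)) (l l' : Fin m → V n),
      (∀ i, T.TwoParabolics (M i) (g i) (g' i) (l i) (l' i) ∧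
        T.SemiampleOrbit (M i) (g i) (l' i)) ∧
      ((∀ M l, T.Projective M → T.NefIsotropic M l → T.semiample M l) ↔
        ∀ i, T.semiample (M i) (l i)) := by
  obtain ⟨m, M, g, g', l, l', h1, h2⟩ := finite_list_par hn hT h0 hs
  exact ⟨m, M, g, g', l, l', h1,
    fun h i => h _ _ (h1 i).1.projective (h1 i).1.left.nef, fun h M l _ hl => h2.2 h M l hl⟩

end Pool.Agent.H93.TR
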