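import Pool.Agent.H93.TR.ParMain

/-!
# Projective primitive symplectic varieties, their terminalizations and automorphisms
-/

set_option autoImplicit false

universe u

namespace Pool.Agent.H93.TR

open Pool.Agent.Q50.HK Pool.Agent.Q50.HK.Moduli

/-- The projective primitive symplectic varieties `X` whose `ℚ`-factorial terminalizations have second
Betti number at least five, and their nef line bundles: `Pair` is the set of the pairs `(X, L)`, `L` a nef
line bundle on `X`; `Semiample P`: `L` is semiample; `Typ` the set of the locally trivial deformation types
of `ℚ`-factorial terminal primitive symplectic varieties with second Betti number at least five (connected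
components of the moduli spaces of marked varieties, not only projective ones), `b i` the second Betti
number and `type i` the marked varieties of the type `i`, with their periods, Kähler cones, wall
classes, monodromy operators, semiample classes and automorphisms. -/
structure SymplecticA where
  /-- the pairs `(X, L)` -/
  Pair : Type u
  /-- `L` is semiample -/
  Semiample : Pair → Prop
  /-- the deformation types -/
  Typ : Type u
  /-- the second Betti number -/
  b : Typ → ℕ
  /-- the marked varieties of the given type -/
  type : ∀ i, Autos.{u} (b i)

/-- The known facts. `facts`: the period map, the chambers, the wall classes, the monodromy and the Torelli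
theorem (Bakker-Lehn; Lehn-Mongardi-Pacienza), deformation invariance of semiampleness for nef isotropic
classes; `isotropic`: Meyer's theorem. `terminalization`: the pull-back of `L` to a `ℚ`-factorial
terminalization `M → X` is nef, and semiample if and only if `L` is; if the pull-back is not isotropic and
nontrivial, then `L` is semiample. `member`: the projective `M` themselves are projective primitive
symplectic. -/
structure SymplecticA.Facts (S : SymplecticA.{u}) : Prop where
  five : ∀ i, 5 ≤ S.b i
  facts : ∀ i, (S.type i).Facts
  isotropic : ∀ i, ∃ l, IsInt l ∧ l ≠ 0 ∧ (S.type i).B l l = 0
  terminalization : ∀ P, S.Semiample P ∨ ∃ i M l, (S.type i).Projective M ∧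
    (S.type i).NefIsotropic M l ∧ (S.Semiample P ↔ (S.type i).semiample M l)
  member : ∀ i M l, (S.type i).Projective M → (S.type i).NefIsotropic M l →
    ∃ P, (S.Semiample P ↔ (S.type i).semiample M l)

theorem all_iff_typesA {S : SymplecticA.{u}} (hS : S.Facts) : (∀ P, S.Semiample P) ↔
    ∀ i M l, (S.type i).Projective M → (S.type i).NefIsotropic M l → (S.type i).semiample M l := by
  constructor
  · intro h i M l hM hl
    obtain ⟨P, hP⟩ := hS.member i M l hM hl
    exact hP.1 (h P)
  · intro h P
    rcases hS.terminalization P with h1 | ⟨i, M, l, hM, hl, h1⟩
    · exact h1
    · exact h1.2 (h i M l hM hl)

end Pool.Agent.H93.TR
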