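import Pool.Agent.H93.TR.DivDefs

/-!
# Root systems of exceptional classes: facts
-/

set_option autoImplicit false

universe u

namespace Pool.Agent.H93.TR

open Pool.Agent.Q50.HK Pool.Agent.Q50.HK.Moduli

variable {n : ℕ}

/-- Known facts, besides those of `Divisors.Facts`. `distinct` (Boucksom): the product of two different
prime divisors is not negative. `reflection` (Markman): the reflection in an exceptional class `e` is a
monodromy operator which preserves the lattice, so it maps exceptional classes to exceptional classes.
`bounded_exceptional` (Markman, Amerik-Verbitsky): the squares of the primitive exceptional classes are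
bounded, so every exceptional class is proportional to one with bounded square. -/
structure Divisors.RootFacts (T : Divisors.{u} n) : Prop where
  facts : T.Facts
  distinct : ∀ M P P', P ≠ P' → 0 ≤ T.B (T.cls M P) (T.cls M P')
  reflection : ∀ e f, T.Exceptional e → T.Exceptional f →
    T.Exceptional (f - (2 * T.B f e / T.B e e) • e)
  bounded_exceptional : ∃ C : ℝ, ∀ e, T.Exceptional e →
    ∃ r : ℝ, r ≠ 0 ∧ T.Exceptional (r • e) ∧ -C ≤ T.B (r • e) (r • e)

end Pool.Agent.H93.TR
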