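import Pool.Agent.H93.TR.Div
import Pool.Agent.H93.TR.RootDefs
import Pool.Agent.H93.SG.Stm

/-!
# Three exceptional classes
-/

set_option autoImplicit false
set_option maxHeartbeats 1000000

universe u

namespace Pool.Agent.H93.TR

open Pool.Agent.Q50.HK Pool.Agent.Q50.HK.Moduli

variable {n : ℕ} {T : Divisors.{u} n}

/-- The theorem of Sylvester and Gallai for lines in a Euclidean space. -/
def SylvesterGallai : Prop :=
  ∀ (n : ℕ) (Q : LinearMap.BilinForm ℝ (Fin n → ℝ)), (∀ x y, Q x y = Q y x) →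
    ∀ S : Submodule ℝ (Fin n → ℝ), (∀ x ∈ S, x ≠ 0 → 0 < Q x x) →
    ∀ Φ : Set (Fin n → ℝ), Φ.Finite → (∀ x ∈ Φ, x ∈ S) →
    (∃ u ∈ Φ, ∃ v ∈ Φ, ∃ w ∈ Φ, LinearIndependent ℝ ![u, v, w]) →
    ∃ a ∈ Φ, ∃ b ∈ Φ, LinearIndependent ℝ ![a, b] ∧
      ∀ c ∈ Φ, c ∈ Submodule.span ℝ {a, b} →
        c ∈ Submodule.span ℝ {a} ∨ c ∈ Submodule.span ℝ {b}

theorem mem_span_three {l e₁ e₂ x : V n} (h : x ∈ Submodule.span ℝ {l, e₁, e₂}) :
    ∃ a b c : ℝ, x = a • l + b • e₁ + c • e₂ := by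
  obtain ⟨a, z, hz, rfl⟩ := Submodule.mem_span_insert.1 h
  obtain ⟨b, c, rfl⟩ := Submodule.mem_span_pair.1 hz
  exact ⟨a, b, c, by module⟩

/-- A divisor with class a multiple of `l` and with orthogonal parts. -/
theorem moving_of_split (hT : T.Facts) {M : T.Mk} {l : V n} (hl : T.NefIsotropic M l)
    {D : T.Prime M →₀ ℕ} {m : ℕ} (hD : T.div M D = (m : ℝ) • l) (p : T.Prime M → Prop)
    (h1 : ∃ P, D P ≠ 0 ∧ p P) (h2 : ∃ P, D P ≠ 0 ∧ ¬ p P)
    (horth : ∀ P, D P ≠ 0 → p P → ∀ P', D P' ≠ 0 → ¬ p P' →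
      T.B (T.cls M P) (T.cls M P') = 0) : T.Moving M l := by
  classical
  have hF : T.toModuli.Facts := hT.bundles.toFacts
  have hq := hl.2.2.1
  have h0 := hl.2.1
  obtain ⟨y, hy⟩ := hF.nonempty M
  have hyl := nef_pos hF hl hy
  have hPl : ∀ P ∈ D.support, T.B l (T.cls M P) = 0 := by
    have h1 : T.B l (T.div M D) = 0 := by rw [hD, map_smul, hq, smul_zero]
    rw [map_div, Finset.sum_eq_zero_iff_of_nonneg (fun P _ =>
      mul_nonneg (Nat.cast_nonneg _) (nef_prime hT hl.2.2.2 P))] at h1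
    intro P hP
    refine (mul_eq_zero.1 (h1 P hP)).resolve_left ?_
    exact_mod_cast Finsupp.mem_support_iff.1 hP
  set D' := D.filter p with hD'
  set D'' := D.filter (fun P => ¬ p P) with hD''
  have hsum : D' + D'' = D := Finsupp.filter_add_filter_not D _
  have hD's : ∀ P ∈ D'.support, P ∈ D.support ∧ p P := by
    intro P hP
    rw [hD', Finsupp.support_filter, Finset.mem_filter] at hP
    exact hP
  have hD''s : ∀ P ∈ D''.support, P ∈ D.support ∧ ¬ p P := by
    intro P hP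
    rw [hD'', Finsupp.support_filter, Finset.mem_filter] at hP
    exact hP
  have horth' : ∀ P ∈ D'.support, ∀ P' ∈ D''.support,
      T.B (T.cls M P) (T.cls M P') = 0 := by
    intro P hP P' hP'
    exact horth P (Finsupp.mem_support_iff.1 (hD's P hP).1) (hD's P hP).2 P'
      (Finsupp.mem_support_iff.1 (hD''s P' hP').1) (hD''s P' hP').2
  have hq0 : T.B (T.div M D') (T.div M D'') = 0 := by
    rw [map_div]
    refine Finset.sum_eq_zero fun P' hP' => ?_
    rw [hF.symm, map_div, Finset.sum_eq_zero fun P hP => ?_, mul_zero]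
    rw [hF.symm, horth' P hP P' hP', mul_zero]
  have hl' : T.B l (T.div M D') = 0 := by
    rw [map_div]
    exact Finset.sum_eq_zero fun P hP => by rw [hPl P (hD's P hP).1, mul_zero]
  have hl'' : T.B l (T.div M D'') = 0 := by
    rw [map_div]
    exact Finset.sum_eq_zero fun P hP => by rw [hPl P (hD''s P hP).1, mul_zero]
  have hcs : T.div M D' + T.div M D'' = (m : ℝ) • l := by
    rw [← div_add, hsum, hD]
  have hq' : T.B (T.div M D') (T.div M D') = 0 := by
    have := congrArg (T.B (T.div M D')) hcs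
    rw [map_add, hq0, map_smul, hF.symm _ l, hl', smul_zero, add_zero] at this
    exact this
  have hq'' : T.B (T.div M D'') (T.div M D'') = 0 := by
    have := congrArg (T.B (T.div M D'')) hcs
    rw [map_add, hF.symm _ (T.div M D'), hq0, map_smul, hF.symm _ l, hl'', smul_zero,
      zero_add] at this
    exact this
  have hdP : ∀ E : T.Prime M →₀ ℕ, T.Orth (T.period M) (T.div M E) := by
    intro E q hq
    rw [map_div]
    exact Finset.sum_eq_zero fun P _ => by rw [hT.orth M P q hq, mul_zero]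
  obtain ⟨a, ha⟩ := (hodge hF hl (hdP D') hl').resolve_left (by rw [hq']; exact lt_irrefl _)
  obtain ⟨b, hb⟩ := (hodge hF hl (hdP D'') hl'').resolve_left (by rw [hq'']; exact lt_irrefl _)
  have hpos : ∀ E : T.Prime M →₀ ℕ, E ≠ 0 → 0 < T.B y (T.div M E) := by
    intro E hE
    rw [map_div]
    obtain ⟨P, hP⟩ := Finsupp.support_nonempty_iff.2 hE
    refine Finset.sum_pos' (fun P _ => mul_nonneg (Nat.cast_nonneg _)
      (hT.positive M P y hy).le) ⟨P, hP, mul_pos ?_ (hT.positive M P y hy)⟩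
    exact_mod_cast Nat.pos_of_ne_zero (Finsupp.mem_support_iff.1 hP)
  obtain ⟨P₁, hP₁s, hp1⟩ := h1
  obtain ⟨P₂, hP₂s, hp2⟩ := h2
  have hv1 : D' P₁ = D P₁ := by rw [hD', Finsupp.filter_apply, if_pos hp1]
  have hv1' : D'' P₁ = 0 := by rw [hD'', Finsupp.filter_apply, if_neg (not_not.2 hp1)]
  have hv2 : D'' P₂ = D P₂ := by rw [hD'', Finsupp.filter_apply, if_pos hp2]
  have hD'0 : D' ≠ 0 := by
    intro h
    rw [h] at hv1
    exact hP₁s hv1.symm
  have hD''0 : D'' ≠ 0 := by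
    intro h
    rw [h] at hv2
    exact hP₂s hv2.symm
  have ha0 : 0 < a := by
    have := hpos D' hD'0
    rw [ha, map_smul, smul_eq_mul] at this
    exact (mul_pos_iff_of_pos_right hyl).1 this
  have hb0 : 0 < b := by
    have := hpos D'' hD''0
    rw [hb, map_smul, smul_eq_mul] at this
    exact (mul_pos_iff_of_pos_right hyl).1 this
  obtain ⟨K, hK, hKi⟩ := div_rational hT M D'
  obtain ⟨K', hK', hKi'⟩ := div_rational hT M D''
  rw [ha] at hKi
  rw [hb] at hKi'
  obtain ⟨r, s, hr, hs, hrs⟩ := rat_coeff hl.1.1 h0 ha0 hK hKi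
  obtain ⟨r', s', hr', hs', hrs'⟩ := rat_coeff hl.1.1 h0 hb0 hK' hKi'
  refine ⟨s * s', Nat.mul_pos hs hs', (r * s') • D', (r' * s) • D'', ?_, ?_, ?_⟩
  · intro h
    have h1 := DFunLike.congr_fun h P₁
    rw [Finsupp.smul_apply, Finsupp.smul_apply, hv1, hv1', smul_eq_mul, smul_zero] at h1
    exact mul_ne_zero (Nat.mul_pos hr hs').ne' hP₁s h1
  · rw [div_nsmul, ha, smul_smul]
    congr 1
    push_cast
    rw [← hrs]
    ring
  · rw [div_nsmul, hb, smul_smul]
    congr 1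
    push_cast
    rw [← hrs']
    ring

/-- A prime exceptional divisor orthogonal to `l` is a component of an effective divisor with class a
multiple of `l`. -/
theorem exists_divisor (hT : T.RootFacts) {M : T.Mk} (hM : T.Projective M) {l : V n}
    (hl : T.NefIsotropic M l) {P : T.Prime M} (hP : T.B (T.cls M P) (T.cls M P) < 0)
    (hlP : T.B l (T.cls M P) = 0) :
    ∃ (m : ℕ) (D : T.Prime M →₀ ℕ), 0 < m ∧ T.div M D = (m : ℝ) • l ∧ D P ≠ 0 := by
  have hF : T.toModuli.Facts := hT.facts.bundles.toFacts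
  obtain ⟨k, hk, he⟩ := hT.facts.prime_exceptional M hM P hP
  have hkr : (0 : ℝ) < k := by exact_mod_cast hk
  set e := (k : ℝ) • T.cls M P with hedef
  clear_value e
  have heP : T.Orth (T.period M) e := fun q hq => by
    rw [hedef, map_smul, hT.facts.orth M P q hq, smul_zero]
  have hle : T.B l e = 0 := by rw [hedef, map_smul, hlP, smul_zero]
  have hel : T.B e l = 0 := by rw [hF.symm]; exact hle
  obtain ⟨c, hc, ⟨a, ha, A, hA⟩, ⟨a', ha', A', hA'⟩⟩ := split_ofQ hT.facts hl he heP hle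
  have har : (0 : ℝ) < a := by exact_mod_cast ha
  have hneg : T.B e (T.div M A) < 0 := by
    rw [hA, map_smul, map_add, map_smul, hel, smul_zero, add_zero, smul_eq_mul]
    exact mul_neg_of_pos_of_neg har he.1
  have hAP : A P ≠ 0 := by
    intro h0
    rw [map_div] at hneg
    have : 0 ≤ ∑ P' ∈ A.support, (A P' : ℝ) * T.B e (T.cls M P') := by
      refine Finset.sum_nonneg fun P' hP' => mul_nonneg (Nat.cast_nonneg _) ?_
      have hne : P ≠ P' := by
        rintro rfl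
        exact Finsupp.mem_support_iff.1 hP' h0
      rw [hedef, map_smul, LinearMap.smul_apply, smul_eq_mul]
      exact mul_nonneg hkr.le (hT.distinct M P P' hne)
    linarith
  refine ⟨2 * a * a' * c, a' • A + a • A', by positivity, ?_, ?_⟩
  · rw [div_add, div_nsmul, div_nsmul, hA, hA']
    push_cast
    module
  · simp only [Finsupp.add_apply, Finsupp.smul_apply, smul_eq_mul]
    have := Nat.mul_pos ha' (Nat.pos_of_ne_zero hAP)
    omega

/-- If `l` is not movable, the effective divisors with classes multiples of `l` have the same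
components. -/
theorem same_support {M : T.Mk} {l : V n} (hmov : ¬ T.Moving M l) {D D' : T.Prime M →₀ ℕ}
    {m m' : ℕ} (hm : 0 < m) (hm' : 0 < m') (hD : T.div M D = (m : ℝ) • l)
    (hD' : T.div M D' = (m' : ℝ) • l) {P : T.Prime M} (hP : D' P ≠ 0) : D P ≠ 0 := by
  by_cases h : m' • D = m • D'
  · intro h0
    have h1 := DFunLike.congr_fun h P
    rw [Finsupp.smul_apply, Finsupp.smul_apply, h0, smul_zero, smul_eq_mul] at h1
    exact mul_ne_zero hm.ne' hP h1.symm
  · exfalso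
    refine hmov ⟨m * m', Nat.mul_pos hm hm', m' • D, m • D', h, ?_, ?_⟩
    · rw [div_nsmul, hD]
      push_cast
      module
    · rw [div_nsmul, hD']
      push_cast
      module

/-- If `l` is not movable, three components of a divisor with more than three components are linearly
independent modulo `l`. -/
theorem independent (hT : T.RootFacts) {M : T.Mk} {l : V n} (hl : T.NefIsotropic M l)
    (hmov : ¬ T.Moving M l) {D : T.Prime M →₀ ℕ} {m : ℕ}
    (hD : T.div M D = (m : ℝ) • l) {P₁ P₂ P₃ P₄ : T.Prime M} (h₁ : D P₁ ≠ 0) (h₂ : D P₂ ≠ 0)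
    (h₃ : D P₃ ≠ 0) (h₄ : D P₄ ≠ 0) (h12 : P₁ ≠ P₂) (h13 : P₁ ≠ P₃) (h23 : P₂ ≠ P₃)
    (h14 : P₁ ≠ P₄) (h24 : P₂ ≠ P₄) (h34 : P₃ ≠ P₄) {x₁ x₂ x₃ t : ℝ}
    (hx : x₁ • T.cls M P₁ + x₂ • T.cls M P₂ + x₃ • T.cls M P₃ = t • l) :
    x₁ = 0 ∧ x₂ = 0 ∧ x₃ = 0 := by
  classical
  have hF : T.toModuli.Facts := hT.facts.bundles.toFacts
  have hq := hl.2.2.1
  by_contra hcon
  apply hmov
  -- the coefficients
  set X : T.Prime M → ℝ := fun P => (if P = P₁ then x₁ else 0) + (if P = P₂ then x₂ else 0) +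
    (if P = P₃ then x₃ else 0) with hX
  have hX1 : X P₁ = x₁ := by simp [hX, h12, h13]
  have hX2 : X P₂ = x₂ := by simp [hX, h12.symm, h23]
  have hX3 : X P₃ = x₃ := by simp [hX, h13.symm, h23.symm]
  have hX4 : X P₄ = 0 := by simp [hX, h14.symm, h24.symm, h34.symm]
  have hXsum : ∑ P ∈ D.support, X P • T.cls M P = t • l := by
    rw [← hx]
    simp only [hX, add_smul, ite_smul, zero_smul, Finset.sum_add_distrib, Finset.sum_ite_eq',
      Finsupp.mem_support_iff]
    rw [if_pos h₁, if_pos h₂, if_pos h₃]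
  have hDpos : ∀ P ∈ D.support, (0 : ℝ) < D P := fun P hP => by
    exact_mod_cast Nat.pos_of_ne_zero (Finsupp.mem_support_iff.1 hP)
  obtain ⟨P₀, hP₀, hmax⟩ := Finset.exists_max_image D.support (fun P => X P / D P)
    ⟨P₁, Finsupp.mem_support_iff.2 h₁⟩
  set τ := X P₀ / D P₀ with hτ
  have hle : ∀ P ∈ D.support, X P ≤ τ * D P := fun P hP =>
    (div_le_iff₀ (hDpos P hP)).1 (hmax P hP)
  have hsumY : ∑ P ∈ D.support, (τ * D P - X P) • T.cls M P = (τ * m - t) • l := by
    have h5 : ∑ P ∈ D.support, (D P : ℝ) • T.cls M P = (m : ℝ) • l := hD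
    have : ∑ P ∈ D.support, (τ * D P - X P) • T.cls M P =
        τ • ∑ P ∈ D.support, (D P : ℝ) • T.cls M P - ∑ P ∈ D.support, X P • T.cls M P := by
      rw [Finset.smul_sum, ← Finset.sum_sub_distrib]
      exact Finset.sum_congr rfl fun P _ => by module
    rw [this, h5, hXsum]
    module
  have hPl : ∀ P ∈ D.support, T.B l (T.cls M P) = 0 := by
    have h1 : T.B l (T.div M D) = 0 := by rw [hD, map_smul, hq, smul_zero]
    rw [map_div, Finset.sum_eq_zero_iff_of_nonneg (fun P _ =>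
      mul_nonneg (Nat.cast_nonneg _) (nef_prime hT.facts hl.2.2.2 P))] at h1
    intro P hP
    refine (mul_eq_zero.1 (h1 P hP)).resolve_left ?_
    exact_mod_cast Finsupp.mem_support_iff.1 hP
  refine moving_of_split hT.facts hl hD (fun P => X P = τ * D P) ⟨P₀,
    Finsupp.mem_support_iff.1 hP₀, ?_⟩ ?_ ?_
  · rw [hτ, div_mul_cancel₀ _ (hDpos P₀ hP₀).ne']
  · by_contra hall
    push Not at hall
    have h40 := hall P₄ h₄
    rw [hX4] at h40
    have hτ0 : τ = 0 := by
      rcases mul_eq_zero.1 h40.symm with h | h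
      · exact h
      · exact absurd h (hDpos P₄ (Finsupp.mem_support_iff.2 h₄)).ne'
    apply hcon
    have e1 := hall P₁ h₁
    have e2 := hall P₂ h₂
    have e3 := hall P₃ h₃
    rw [hτ0, zero_mul] at e1 e2 e3
    exact ⟨by rw [← hX1, e1], by rw [← hX2, e2], by rw [← hX3, e3]⟩
  · intro P hPs hP P' hP's hP'
    have hPs' := Finsupp.mem_support_iff.2 hPs
    have hP's' := Finsupp.mem_support_iff.2 hP's
    have h6 : ∑ P'' ∈ D.support, (τ * D P'' - X P'') * T.B (T.cls M P) (T.cls M P'') = 0 := by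
      have := congrArg (T.B (T.cls M P)) hsumY
      rw [map_sum, map_smul, hF.symm _ l, hPl P hPs', smul_zero] at this
      rw [← this]
      exact Finset.sum_congr rfl fun P'' _ => by rw [map_smul, smul_eq_mul]
    have hnn : ∀ P'' ∈ D.support, 0 ≤ (τ * D P'' - X P'') * T.B (T.cls M P) (T.cls M P'') := by
      intro P'' hP''
      by_cases h : P = P''
      · rw [← h, hP, sub_self, zero_mul]
      · exact mul_nonneg (sub_nonneg.2 (hle P'' hP'')) (hT.distinct M P P'' h)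
    have h7 := (Finset.sum_eq_zero_iff_of_nonneg hnn).1 h6 P' hP's'
    exact (mul_eq_zero.1 h7).resolve_left fun h => hP' (sub_eq_zero.1 h).symm

/-- **Three exceptional classes.** If three exceptional classes orthogonal to `l` span a negative definite
space of dimension three, there is a pair as in `ExceptionalPair`. -/
theorem pair_of_three (hSG : SylvesterGallai) (hFIN : Pool.Agent.H93.SG.S_FIN)
    (hT : T.RootFacts) {l e₁ e₂ e₃ : V n} (hq : T.B l l = 0)
    (h₁ : T.Exceptional e₁) (h₂ : T.Exceptional e₂) (h₃ : T.Exceptional e₃)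
    (hl1 : T.B l e₁ = 0) (hl2 : T.B l e₂ = 0) (hl3 : T.B l e₃ = 0)
    (hind : LinearIndependent ℝ ![e₁, e₂, e₃])
    (hneg : ∀ x ∈ Submodule.span ℝ {e₁, e₂, e₃}, x ≠ 0 → T.B x x < 0) :
    T.ExceptionalPair l := by
  have hF : T.toModuli.Facts := hT.facts.bundles.toFacts
  obtain ⟨C, hC⟩ := hT.bounded_exceptional
  set S : Submodule ℝ (V n) := Submodule.span ℝ {e₁, e₂, e₃} with hSdef
  have hS1 : e₁ ∈ S := Submodule.subset_span (by simp)
  have hS2 : e₂ ∈ S := Submodule.subset_span (by simp)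
  have hS3 : e₃ ∈ S := Submodule.subset_span (by simp)
  have hSl : ∀ x ∈ S, T.B l x = 0 := by
    intro x hx
    obtain ⟨a, b, c, rfl⟩ := mem_span_three hx
    simp only [map_add, map_smul, hl1, hl2, hl3, smul_zero, add_zero]
  have hSl' : ∀ x ∈ S, T.B x l = 0 := fun x hx => by rw [hF.symm]; exact hSl x hx
  have hlS : ∀ x ∈ S, ∀ t : ℝ, x = t • l → x = 0 := by
    intro x hx t ht
    by_contra h0
    have := hneg x hx h0
    rw [ht] at this
    simp [hq] at this
  set Φ : Set (V n) := {x | x ∈ S ∧ -C ≤ T.B x x ∧ ∃ t : ℝ, T.Exceptional (x + t • l)} with hΦ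
  have hΦfin : Φ.Finite := by
    refine (hFIN n T.B hF.symm e₁ e₂ e₃ hneg C).subset ?_
    rintro x ⟨hxS, hxC, t, hxt⟩
    have key : ∀ e, T.Exceptional e → T.B l e = 0 → ∃ k : ℤ, T.B x e = k := by
      intro e he hle
      obtain ⟨k, hk⟩ := hF.integral _ _ hxt.2.1.1 he.2.1.1
      refine ⟨k, ?_⟩
      rw [← hk, map_add, LinearMap.add_apply, map_smul, LinearMap.smul_apply, hle, smul_zero,
        add_zero]
    obtain ⟨k₁, hk₁⟩ := key e₁ h₁ hl1
    obtain ⟨k₂, hk₂⟩ := key e₂ h₂ hl2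
    obtain ⟨k₃, hk₃⟩ := key e₃ h₃ hl3
    exact ⟨hxS, hxC, k₁, k₂, k₃, hk₁, hk₂, hk₃⟩
  obtain ⟨r₁, hr₁, hx₁, hc₁⟩ := hC e₁ h₁
  obtain ⟨r₂, hr₂, hx₂, hc₂⟩ := hC e₂ h₂
  obtain ⟨r₃, hr₃, hx₃, hc₃⟩ := hC e₃ h₃
  have hΦ1 : r₁ • e₁ ∈ Φ := ⟨S.smul_mem _ hS1, hc₁, 0, by rwa [zero_smul, add_zero]⟩
  have hΦ2 : r₂ • e₂ ∈ Φ := ⟨S.smul_mem _ hS2, hc₂, 0, by rwa [zero_smul, add_zero]⟩
  have hΦ3 : r₃ • e₃ ∈ Φ := ⟨S.smul_mem _ hS3, hc₃, 0, by rwa [zero_smul, add_zero]⟩
  have hind' : LinearIndependent ℝ ![r₁ • e₁, r₂ • e₂, r₃ • e₃] := by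
    have := hind.units_smul ![Units.mk0 r₁ hr₁, Units.mk0 r₂ hr₂, Units.mk0 r₃ hr₃]
    convert this using 1
    ext i
    fin_cases i <;> rfl
  obtain ⟨a, haΦ, b, hbΦ, hab, hord⟩ := hSG n (-T.B)
    (fun x y => by simp only [LinearMap.neg_apply, hF.symm x y]) S
    (fun x hx hx0 => by
      have := hneg x hx hx0
      simp only [LinearMap.neg_apply]
      linarith) Φ hΦfin (fun x hx => hx.1)
    ⟨_, hΦ1, _, hΦ2, _, hΦ3, hind'⟩
  obtain ⟨haS, haC, s, has⟩ := haΦ
  obtain ⟨hbS, hbC, t, hbt⟩ := hbΦ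
  have hpair := LinearIndependent.pair_iff.1 hab
  set f₁ : V n := a + s • l with hf₁
  set f₂ : V n := b + t • l with hf₂
  have hlf₁ : T.B l f₁ = 0 := by rw [hf₁, map_add, hSl a haS, map_smul, hq, smul_zero, add_zero]
  have hlf₂ : T.B l f₂ = 0 := by rw [hf₂, map_add, hSl b hbS, map_smul, hq, smul_zero, add_zero]
  have hkey : ∀ e, T.Exceptional e → e ∈ Submodule.span ℝ {l, f₁, f₂} →
      e ∈ Submodule.span ℝ {l, f₁} ∨ e ∈ Submodule.span ℝ {l, f₂} := by
    intro e he hmem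
    obtain ⟨r, hr, hre, hrC⟩ := hC e he
    obtain ⟨α, β, γ, hx⟩ := mem_span_three (Submodule.smul_mem _ r hmem)
    have hxS : β • a + γ • b ∈ S := S.add_mem (S.smul_mem _ haS) (S.smul_mem _ hbS)
    have hxe : r • e = (β • a + γ • b) + (α + β * s + γ * t) • l := by
      rw [hx, hf₁, hf₂]
      module
    have hsq : T.B (r • e) (r • e) = T.B (β • a + γ • b) (β • a + γ • b) := by
      rw [hxe]
      generalize β • a + γ • b = x at hxS
      generalize α + β * s + γ * t = u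
      simp only [map_add, LinearMap.add_apply, map_smul, LinearMap.smul_apply, smul_eq_mul,
        hSl x hxS, hSl' x hxS, hq]
      ring
    have hxΦ : β • a + γ • b ∈ Φ := ⟨hxS, by rw [← hsq]; exact hrC, _, by rw [← hxe]; exact hre⟩
    have hxab : β • a + γ • b ∈ Submodule.span ℝ {a, b} :=
      Submodule.mem_span_pair.2 ⟨β, γ, rfl⟩
    rcases hord _ hxΦ hxab with h | h
    · left
      obtain ⟨c, hc⟩ := Submodule.mem_span_singleton.1 h
      refine Submodule.mem_span_pair.2 ⟨r⁻¹ * (α + β * s + γ * t - c * s), r⁻¹ * c, ?_⟩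
      have h1 : e = r⁻¹ • (r • e) := by rw [smul_smul, inv_mul_cancel₀ hr, one_smul]
      rw [h1, hxe, ← hc, hf₁]
      module
    · right
      obtain ⟨c, hc⟩ := Submodule.mem_span_singleton.1 h
      refine Submodule.mem_span_pair.2 ⟨r⁻¹ * (α + β * s + γ * t - c * t), r⁻¹ * c, ?_⟩
      have h1 : e = r⁻¹ • (r • e) := by rw [smul_smul, inv_mul_cancel₀ hr, one_smul]
      rw [h1, hxe, ← hc, hf₂]
      module
  have hno : ∀ α β γ : ℝ, α • l + β • f₁ + γ • f₂ = 0 → β = 0 ∧ γ = 0 := by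
    intro α β γ h
    apply hpair
    refine hlS _ (S.add_mem (S.smul_mem _ haS) (S.smul_mem _ hbS)) (-(α + β * s + γ * t)) ?_
    have h2 : β • a + γ • b = (α • l + β • f₁ + γ • f₂) + (-(α + β * s + γ * t)) • l := by
      rw [hf₁, hf₂]
      module
    rw [h2, h, zero_add]
  refine ⟨f₁, f₂, has, hbt, hlf₁, hlf₂, ?_, hkey⟩
  by_contra h12
  have h21 : T.B f₂ f₁ ≠ 0 := by rw [hF.symm]; exact h12
  set κ : ℝ := 2 * T.B f₂ f₁ / T.B f₁ f₁ with hκ
  have hκ0 : κ ≠ 0 := div_ne_zero (mul_ne_zero two_ne_zero h21) has.1.ne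
  have hg := hT.reflection f₁ f₂ has hbt
  rw [← hκ] at hg
  have hgm : f₂ - κ • f₁ ∈ Submodule.span ℝ {l, f₁, f₂} :=
    Submodule.sub_mem _ (Submodule.subset_span (by simp))
      (Submodule.smul_mem _ _ (Submodule.subset_span (by simp)))
  rcases hkey _ hg hgm with h | h
  · obtain ⟨p, q, hpq⟩ := Submodule.mem_span_pair.1 h
    have := hno (-p) (-(κ + q)) 1 (by
      have : (-p) • l + (-(κ + q)) • f₁ + (1 : ℝ) • f₂ =
          (f₂ - κ • f₁) - (p • l + q • f₁) := by module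
      rw [this, hpq, sub_self])
    exact one_ne_zero this.2
  · obtain ⟨p, q, hpq⟩ := Submodule.mem_span_pair.1 h
    have := hno (-p) (-κ) (1 - q) (by
      have : (-p) • l + (-κ) • f₁ + (1 - q) • f₂ =
          (f₂ - κ • f₁) - (p • l + q • f₂) := by module
      rw [this, hpq, sub_self])
    exact hκ0 (neg_eq_zero.1 this.1)

/-- There are four different prime divisors of negative square orthogonal to `l`. -/
def Divisors.FourExceptional (T : Divisors.{u} n) (M : T.Mk) (l : V n) : Prop :=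
  ∃ P : Fin 4 → T.Prime M, Function.Injective P ∧
    ∀ i, T.B (T.cls M (P i)) (T.cls M (P i)) < 0 ∧ T.B l (T.cls M (P i)) = 0

/-- **Four prime exceptional divisors.** -/
theorem pair_or_moving (hSG : SylvesterGallai) (hFIN : Pool.Agent.H93.SG.S_FIN)
    (hT : T.RootFacts) {M : T.Mk} (hM : T.Projective M) {l : V n} (hl : T.NefIsotropic M l)
    (h4 : T.FourExceptional M l) : T.Moving M l ∨ T.ExceptionalPair l := by
  have hF : T.toModuli.Facts := hT.facts.bundles.toFacts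
  by_cases hmov : T.Moving M l
  · exact Or.inl hmov
  right
  obtain ⟨P, hinj, hP⟩ := h4
  have hne : ∀ i j : Fin 4, i ≠ j → P i ≠ P j := fun i j h h' => h (hinj h')
  choose m D hm hD hDP using fun i => exists_divisor hT hM hl (hP i).1 (hP i).2
  have hsupp : ∀ i, D 0 (P i) ≠ 0 := fun i => same_support hmov (hm 0) (hm i) (hD 0) (hD i) (hDP i)
  have hrel : ∀ x₁ x₂ x₃ t : ℝ, x₁ • T.cls M (P 0) + x₂ • T.cls M (P 1) + x₃ • T.cls M (P 2) =
      t • l → x₁ = 0 ∧ x₂ = 0 ∧ x₃ = 0 := fun x₁ x₂ x₃ t hx =>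
    independent hT hl hmov (hD 0) (hsupp 0) (hsupp 1) (hsupp 2) (hsupp 3)
      (hne 0 1 (by decide)) (hne 0 2 (by decide)) (hne 1 2 (by decide)) (hne 0 3 (by decide))
      (hne 1 3 (by decide)) (hne 2 3 (by decide)) hx
  choose k hk he using fun i => hT.facts.prime_exceptional M hM (P i) (hP i).1
  have hkr : ∀ i, (k i : ℝ) ≠ 0 := fun i => by exact_mod_cast (hk i).ne'
  have hrel' : ∀ x₁ x₂ x₃ t : ℝ, x₁ • ((k 0 : ℝ) • T.cls M (P 0)) +
      x₂ • ((k 1 : ℝ) • T.cls M (P 1)) + x₃ • ((k 2 : ℝ) • T.cls M (P 2)) =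
      t • l → x₁ = 0 ∧ x₂ = 0 ∧ x₃ = 0 := by
    intro x₁ x₂ x₃ t hx
    rw [smul_smul, smul_smul, smul_smul] at hx
    obtain ⟨h1, h2, h3⟩ := hrel _ _ _ t hx
    exact ⟨(mul_eq_zero.1 h1).resolve_right (hkr 0), (mul_eq_zero.1 h2).resolve_right (hkr 1),
      (mul_eq_zero.1 h3).resolve_right (hkr 2)⟩
  have hle : ∀ i, T.B l ((k i : ℝ) • T.cls M (P i)) = 0 := fun i => by
    rw [map_smul, (hP i).2, smul_zero]
  refine pair_of_three hSG hFIN hT hl.2.2.1 (he 0) (he 1) (he 2) (hle 0) (hle 1) (hle 2) ?_ ?_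
  · rw [Fintype.linearIndependent_iff]
    intro g hg
    rw [Fin.sum_univ_three] at hg
    obtain ⟨h1, h2, h3⟩ := hrel' (g 0) (g 1) (g 2) 0 (by rw [zero_smul]; exact hg)
    intro i
    fin_cases i
    · exact h1
    · exact h2
    · exact h3
  · intro x hx hx0
    obtain ⟨a, b, c, rfl⟩ := mem_span_three hx
    refine (hodge hF hl (fun q hq => ?_) ?_).resolve_right ?_
    · simp only [map_add, map_smul, hT.facts.orth M (P 0) q hq, hT.facts.orth M (P 1) q hq,
        hT.facts.orth M (P 2) q hq, smul_zero, add_zero]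
    · simp only [map_add, map_smul, (hP 0).2, (hP 1).2, (hP 2).2, smul_zero, add_zero]
    · rintro ⟨t, ht⟩
      obtain ⟨h1, h2, h3⟩ := hrel' a b c t ht
      apply hx0
      rw [h1, h2, h3]
      simp

/-- **Semiampleness.** -/
theorem semiample_of_four (hSG : SylvesterGallai) (hFIN : Pool.Agent.H93.SG.S_FIN)
    (hT : T.RootFacts) (hdim : T.dim ≤ 4 ∨ ∀ m < T.dim, T.good m) {M₀ : T.Mk} {l : V n}
    (hM₀ : T.Projective M₀) (hl : T.NefIsotropic M₀ l) (h4 : T.FourExceptional M₀ l) {M : T.Mk}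
    (hM : T.NefIsotropic M l) : T.semiample M l := by
  rcases pair_or_moving hSG hFIN hT hM₀ hl h4 with h | h
  · have hgood : ∀ m < T.dim, T.good m := by
      rcases hdim with h | h
      · intro m hm
        exact hT.facts.good_three m (by omega)
      · exact h
    exact hT.facts.bundles.matsushita M₀ M l hl hM (hT.facts.abundance hgood M₀ l hM₀ hl h)
  · obtain ⟨M', hpr, hl', hred⟩ := exists_reducible hT.facts hl.1.1 hl.2.1 hl.2.2.1 h
    exact semiample_of_reducible hT.facts hdim hpr hl' hred hM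

end Pool.Agent.H93.TR
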