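import Pool.Agent.H93.TR.Root
import Pool.Agent.H93.SG.ALG
import Pool.Agent.H93.SG.COORD
import Pool.Agent.H93.SG.GRAM
import Pool.Agent.H93.SG.KEL
import Pool.Agent.H93.SG.FIN

/-!
# Criteria for semiampleness from exceptional classes
-/

set_option autoImplicit false

universe u

namespace Pool.Agent.H93.TR

open Pool.Agent.Q50.HK Pool.Agent.Q50.HK.Moduli Pool.Agent.H93.SG

theorem sylvesterGallai : SylvesterGallai :=
  kel_sound alg_sound coord_sound gram_sound

variable {n : ℕ}

/-- There are three exceptional classes orthogonal to `l` which span a negative definite space of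
dimension three. -/
def Divisors.ThreeClasses (T : Divisors.{u} n) (l : V n) : Prop :=
  ∃ e₁ e₂ e₃, T.Exceptional e₁ ∧ T.Exceptional e₂ ∧ T.Exceptional e₃ ∧
    T.B l e₁ = 0 ∧ T.B l e₂ = 0 ∧ T.B l e₃ = 0 ∧ LinearIndependent ℝ ![e₁, e₂, e₃] ∧
    ∀ x ∈ Submodule.span ℝ {e₁, e₂, e₃}, x ≠ 0 → T.B x x < 0

/-- The class `l` has many orthogonal exceptional classes: there is a projective `M₀` on which `l` is nef,
and on which there are four different prime divisors of negative square orthogonal to `l`, or on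
which the set of the exceptional classes of type `(1,1)` orthogonal to `l` is reducible; or there are
three exceptional classes orthogonal to `l` as in `ThreeClasses`, or two as in `ExceptionalPair`. -/
def Divisors.ManyExceptional (T : Divisors.{u} n) (l : V n) : Prop :=
  (∃ M₀, T.Projective M₀ ∧ T.NefIsotropic M₀ l ∧ (T.FourExceptional M₀ l ∨ T.Reducible M₀ l)) ∨
    T.ThreeClasses l ∨ T.ExceptionalPair l

variable {T : Divisors.{u} n}

/-- There is a projective manifold with a movable multiple of `l`. -/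
theorem exists_moving (hT : T.RootFacts) {l : V n} (hl : IsInt l) (h0 : l ≠ 0)
    (hq : T.B l l = 0) (h : T.ManyExceptional l) :
    ∃ M₁, T.Projective M₁ ∧ T.NefIsotropic M₁ l ∧ T.Moving M₁ l := by
  have key : T.ExceptionalPair l → ∃ M₁, T.Projective M₁ ∧ T.NefIsotropic M₁ l ∧ T.Moving M₁ l := by
    intro hp
    obtain ⟨M, hM, hlM, hred⟩ := exists_reducible hT.facts hl h0 hq hp
    exact ⟨M, hM, hlM, moving hT.facts hM hlM hred⟩
  rcases h with ⟨M₀, hM₀, hl₀, h | h⟩ | ⟨e₁, e₂, e₃, h₁, h₂, h₃, hl1, hl2, hl3, hind, hneg⟩ | h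
  · rcases pair_or_moving sylvesterGallai fin_sound hT hM₀ hl₀ h with h | h
    · exact ⟨M₀, hM₀, hl₀, h⟩
    · exact key h
  · exact ⟨M₀, hM₀, hl₀, moving hT.facts hM₀ hl₀ h⟩
  · exact key (pair_of_three sylvesterGallai fin_sound hT hq h₁ h₂ h₃ hl1 hl2 hl3 hind hneg)
  · exact key h

/-- **Semiampleness.** -/
theorem semiample_main (hT : T.RootFacts) (hdim : T.dim ≤ 4 ∨ ∀ m < T.dim, T.good m)
    {l : V n} (h : T.ManyExceptional l) {M : T.Mk} (hM : T.NefIsotropic M l) :
    T.semiample M l := by
  obtain ⟨M₁, hM₁, hl₁, hmov⟩ := exists_moving hT hM.1.1 hM.2.1 hM.2.2.1 h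
  have hgood : ∀ m < T.dim, T.good m := by
    rcases hdim with h | h
    · intro m hm
      exact hT.facts.good_three m (by omega)
    · exact h
  exact hT.facts.bundles.matsushita M₁ M l hl₁ hM (hT.facts.abundance hgood M₁ l hM₁ hl₁ hmov)

end Pool.Agent.H93.TR
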