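import Pool.Agent.H93.TR.Main

/-!
# Projective primitive symplectic varieties and their terminalizations
-/

set_option autoImplicit false

universe u

namespace Pool.Agent.H93.TR

open Pool.Agent.Q50.HK Pool.Agent.Q50.HK.Moduli

/-- The projective primitive symplectic varieties `X` whose `ℚ`-factorial terminalizations have second
Betti number at least five, and their nef line bundles: `Pair` is the set of the pairs `(X, L)`, `L` a nef
line bundle on `X`; `Semiample P`: `L` is semiample; `Typ` the set of the locally trivial deformation types
of `ℚ`-factorial terminal primitive symplectic varieties with second Betti number at least five (connected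
components of the moduli spaces of marked varieties, not only projective ones), `b i` the second Betti
number and `type i` the marked varieties of the type `i`, with their periods, Kähler cones, wall
classes, monodromy operators and semiample classes. -/
structure Symplectic where
  /-- the pairs `(X, L)` -/
  Pair : Type u
  /-- `L` is semiample -/
  Semiample : Pair → Prop
  /-- the deformation types -/
  Typ : Type u
  /-- the second Betti number -/
  b : Typ → ℕ
  /-- the marked varieties of the given type -/
  type : ∀ i, Bundles.{u} (b i)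

/-- The known facts. `facts`, `index`: the period map, the chambers, the wall classes and the monodromy
(Bakker-Lehn; Lehn-Mongardi-Pacienza), deformation invariance of semiampleness for nef isotropic classes;
`isotropic`: Meyer's theorem. `terminalization`: the pull-back of `L` to a `ℚ`-factorial terminalization
`M → X` is nef, and semiample if and only if `L` is; if the pull-back is not isotropic and nontrivial, then
`L` is semiample. `member`: the projective `M` themselves are projective primitive symplectic. -/
structure Symplectic.Facts (S : Symplectic.{u}) : Prop where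
  five : ∀ i, 5 ≤ S.b i
  facts : ∀ i, (S.type i).Facts
  index : ∀ i, FiniteIndex (S.type i).toModuli (S.type i).mon
  isotropic : ∀ i, ∃ l, IsInt l ∧ l ≠ 0 ∧ (S.type i).B l l = 0
  terminalization : ∀ P, S.Semiample P ∨ ∃ i M l, (S.type i).Projective M ∧
    (S.type i).NefIsotropic M l ∧ (S.Semiample P ↔ (S.type i).semiample M l)
  member : ∀ i M l, (S.type i).Projective M → (S.type i).NefIsotropic M l →
    ∃ P, (S.Semiample P ↔ (S.type i).semiample M l)

/-- All nef line bundles with `q = 0` on the projective members of the type `T` are semiample. -/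
def SemiampleOn {n : ℕ} (T : Bundles.{u} n) : Prop :=
  ∀ M l, T.Projective M → T.NefIsotropic M l → T.semiample M l

variable {S : Symplectic.{u}}

theorem all_iff_types (hS : S.Facts) : (∀ P, S.Semiample P) ↔ ∀ i, SemiampleOn (S.type i) := by
  constructor
  · intro h i M l hM hl
    obtain ⟨P, hP⟩ := hS.member i M l hM hl
    exact hP.1 (h P)
  · intro h P
    rcases hS.terminalization P with h1 | ⟨i, M, l, hM, hl, h1⟩
    · exact h1
    · exact h1.2 (h i M l hM hl)

theorem semiampleOn_iff {n : ℕ} {T : Bundles.{u} n} (hn : 5 ≤ n) (hT : T.Facts)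
    (hmon : FiniteIndex T.toModuli T.mon) (hiso : ∃ l, IsInt l ∧ l ≠ 0 ∧ T.B l l = 0) :
    SemiampleOn T ↔ (∃ M l, T.Projective M ∧ T.NefIsotropic M l ∧ T.semiample M l) ∧
      ∀ M l l', TwoRays T.toModuli M l l' → T.semiample M l' → T.semiample M l := by
  constructor
  · intro h
    obtain ⟨l, hl, h0, hq⟩ := hiso
    obtain ⟨M, -, hproj, hM⟩ := exists_picard hT.toFacts hl h0 hq (r := 2) (by norm_num) (by omega)
    exact ⟨⟨M, l, hproj le_rfl, hM, h M l (hproj le_rfl) hM⟩,
      fun M l l' hM _ => h M l hM.projective hM.left⟩
  · rintro ⟨⟨M₀, l₀, -, h0, hs⟩, h⟩ M l - hl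
    exact (criterion hn hT hmon hiso).2 ⟨⟨M₀, l₀, h0, hs⟩, h⟩ M l hl

theorem finite_list_proj {n : ℕ} {T : Bundles.{u} n} (hn : 5 ≤ n) (hT : T.Facts)
    (hmon : FiniteIndex T.toModuli T.mon) {M₀ : T.Mk} {l₀ : V n} (h0 : T.NefIsotropic M₀ l₀)
    (hs : T.semiample M₀ l₀) :
    ∃ (m : ℕ) (M : Fin m → T.Mk) (l l' : Fin m → V n),
      (∀ i, TwoRays T.toModuli (M i) (l i) (l' i) ∧ T.semiample (M i) (l' i)) ∧
      (SemiampleOn T ↔ ∀ i, T.semiample (M i) (l i)) := by
  obtain ⟨m, M, l, l', h1, h2⟩ := finite_list hn hT hmon h0 hs
  refine ⟨m, M, l, l', h1, fun h i => h _ _ (h1 i).1.projective (h1 i).1.left, fun h M l _ hl => ?_⟩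
  exact h2.2 h M l hl

end Pool.Agent.H93.TR
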